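import Mathlib

set_option autoImplicit false

/-! First order expansions of iterates of polynomial self maps of affine space. -/

namespace Pool.Agent.H936R2

open MvPolynomial

variable {ι : Type} [Fintype ι] [DecidableEq ι] {O : Type} [CommRing O]

/-- The self-map of `O^ι` given by a tuple of polynomials. -/
noncomputable def pt (F : ι → MvPolynomial ι O) (x : ι → O) : ι → O := fun i => eval x (F i)

/-- The Jacobian matrix. -/
noncomputable def jac (F : ι → MvPolynomial ι O) (x : ι → O) : Matrix ι ι O :=
  fun i j => eval x (pderiv j (F i))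

omit [Fintype ι] [DecidableEq ι] in
lemma taylor_one [Fintype ι] {S : Type} [CommRing S] [Algebra O S] (π : O) (c : ι → O) (y : ι → S)
    (g : MvPolynomial ι O) :
    ∃ r : S, aeval (fun i => algebraMap O S (c i) + algebraMap O S π * y i) g =
      algebraMap O S (eval c g) +
        algebraMap O S π * (∑ j, algebraMap O S (eval c (pderiv j g)) * y j) +
        algebraMap O S (π ^ 2) * r := by
  classical
  induction g using MvPolynomial.induction_on with
  | C a =>
    refine ⟨0, ?_⟩
    simp
  | add p q hp hq =>
    obtain ⟨r1, h1⟩ := hp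
    obtain ⟨r2, h2⟩ := hq
    refine ⟨r1 + r2, ?_⟩
    rw [map_add, h1, h2]
    simp only [map_add, add_mul, Finset.sum_add_distrib]
    ring
  | mul_X p i hp =>
    obtain ⟨r, h⟩ := hp
    have hsum : ∑ j, algebraMap O S (eval c (pderiv j (p * X i))) * y j =
        algebraMap O S (c i) * (∑ j, algebraMap O S (eval c (pderiv j p)) * y j) +
          algebraMap O S (eval c p) * y i := by
      have h1 : ∀ j, algebraMap O S (eval c (pderiv j (p * X i))) * y j =
          algebraMap O S (c i) * (algebraMap O S (eval c (pderiv j p)) * y j) +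
            (if j = i then algebraMap O S (eval c p) * y i else 0) := by
        intro j
        rw [Derivation.leibniz]
        simp only [smul_eq_mul, map_add, map_mul, eval_X]
        by_cases hj : j = i
        · subst hj
          rw [if_pos rfl, pderiv_X_self]
          simp only [map_one]
          ring
        · rw [if_neg hj, pderiv_X_of_ne (Ne.symm hj)]
          simp only [map_zero]
          ring
      rw [Finset.sum_congr rfl fun j _ => h1 j, Finset.sum_add_distrib, ← Finset.mul_sum]
      congr 1
      simp
    refine ⟨r * (algebraMap O S (c i) + algebraMap O S π * y i) +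
      (∑ j, algebraMap O S (eval c (pderiv j p)) * y j) * y i, ?_⟩
    rw [map_mul, h, hsum]
    simp only [aeval_X, map_mul, eval_X, map_pow]
    ring

/-- The polynomials `F^k (b + π X)`. -/
noncomputable def itP (F : ι → MvPolynomial ι O) (π : O) (b : ι → O) : ℕ → ι → MvPolynomial ι O
  | 0 => fun i => C (b i) + C π * X i
  | k + 1 => fun i => aeval (itP F π b k) (F i)

/-- The product of the Jacobian matrices along the orbit. -/
noncomputable def itA (F : ι → MvPolynomial ι O) (b : ι → O) : ℕ → Matrix ι ι O
  | 0 => 1
  | k + 1 => jac F ((pt F)^[k] b) * itA F b k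

lemma itP_eval (F : ι → MvPolynomial ι O) (π : O) (b : ι → O) (k : ℕ) (u : ι → O) (i : ι) :
    eval u (itP F π b k i) = (pt F)^[k] (fun i => b i + π * u i) i := by
  induction k generalizing i with
  | zero => simp [itP]
  | succ k ih =>
    rw [Function.iterate_succ_apply']
    simp only [itP, pt]
    have h : eval u (aeval (itP F π b k) (F i)) = eval (fun j => eval u (itP F π b k j)) (F i) := by
      rw [← MvPolynomial.coe_aeval_eq_eval u]
      change (aeval u) ((aeval (itP F π b k)) (F i)) = _
      rw [← AlgHom.comp_apply, comp_aeval]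
      rw [← MvPolynomial.coe_aeval_eq_eval]
      rfl
    rw [h]
    congr 2
    funext j
    exact ih j

lemma itP_expand (F : ι → MvPolynomial ι O) (π : O) (b : ι → O) (k : ℕ) :
    ∃ r : ι → MvPolynomial ι O, ∀ i, itP F π b k i =
      C ((pt F)^[k] b i) + C π * (∑ j, C (itA F b k i j) * X j) + C (π ^ 2) * r i := by
  induction k with
  | zero =>
    refine ⟨fun _ => 0, fun i => ?_⟩
    simp only [itP, itA, Function.iterate_zero, id_eq, mul_zero, add_zero]
    congr 2
    rw [Finset.sum_eq_single i]
    · simp
    · intro j _ hj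
      rw [Matrix.one_apply_ne (Ne.symm hj)]
      simp
    · simp
  | succ k ih =>
    obtain ⟨r, hr⟩ := ih
    have h1 : ∀ i, itP F π b k i = algebraMap O (MvPolynomial ι O) ((pt F)^[k] b i) +
        algebraMap O (MvPolynomial ι O) π * ((∑ j, C (itA F b k i j) * X j) + C π * r i) := by
      intro i
      rw [hr i]
      simp only [algebraMap_eq, map_pow]
      ring
    have h2 : itP F π b k = fun i => algebraMap O (MvPolynomial ι O) ((pt F)^[k] b i) +
        algebraMap O (MvPolynomial ι O) π * ((∑ j, C (itA F b k i j) * X j) + C π * r i) :=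
      funext h1
    have h3 : ∀ i, ∃ r' : MvPolynomial ι O, itP F π b (k + 1) i =
        C ((pt F)^[k + 1] b i) + C π * (∑ j, C (itA F b (k + 1) i j) * X j) + C (π ^ 2) * r' := by
      intro i
      obtain ⟨r', hr'⟩ := taylor_one π ((pt F)^[k] b)
        (fun i => (∑ j, C (itA F b k i j) * X j) + C π * r i : ι → MvPolynomial ι O) (F i)
      refine ⟨r' + ∑ j, C (eval ((pt F)^[k] b) (pderiv j (F i))) * r j, ?_⟩
      simp only [itP]
      rw [h2, hr', Function.iterate_succ_apply']
      have h4 : ∑ j, algebraMap O (MvPolynomial ι O) (eval ((pt F)^[k] b) (pderiv j (F i))) *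
          ((∑ l, C (itA F b k j l) * X l) + C π * r j) =
          (∑ j, C (itA F b (k + 1) i j) * X j) +
            C π * ∑ j, C (eval ((pt F)^[k] b) (pderiv j (F i))) * r j := by
        simp only [mul_add, Finset.sum_add_distrib, algebraMap_eq]
        congr 1
        · simp only [itA, Matrix.mul_apply, jac, map_sum, Finset.sum_mul, Finset.mul_sum]
          rw [Finset.sum_comm]
          apply Finset.sum_congr rfl; intro j _
          apply Finset.sum_congr rfl; intro l _
          rw [C_mul]; ring
        · rw [Finset.mul_sum]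
          apply Finset.sum_congr rfl; intro j _
          ring
      rw [h4]
      simp only [algebraMap_eq, pt, map_pow]
      ring
    choose r' hr' using h3
    exact ⟨r', hr'⟩

/-- If `b` is periodic modulo `π²` and the Jacobian of the return map is trivial modulo `π`, then
in the scaled coordinate the return map is congruent to the identity modulo `π`. -/
lemma exists_scaled (F : ι → MvPolynomial ι O) (π : O) (b : ι → O) (k : ℕ) (v : ι → O)
    (B : Matrix ι ι O) (hb : ∀ i, (pt F)^[k] b i = b i + π ^ 2 * v i)
    (hA : ∀ i j, itA F b k i j = (1 : Matrix ι ι O) i j + π * B i j) :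
    ∃ w : ι → MvPolynomial ι O, ∀ u : ι → O,
      (pt F)^[k] (fun i => b i + π * u i) =
        fun i => b i + π * pt (fun i => X i + C π * w i) u i := by
  obtain ⟨r, hr⟩ := itP_expand F π b k
  refine ⟨fun i => C (v i) + (∑ j, C (B i j) * X j) + r i, fun u => ?_⟩
  funext i
  rw [← itP_eval, hr i]
  simp only [map_add, map_mul, eval_C, pt, eval_X, map_sum, hb, hA, map_pow]
  have h1 : ∑ j, ((1 : Matrix ι ι O) i j + π * B i j) * u j = u i + π * ∑ j, B i j * u j := by
    simp only [add_mul, Finset.sum_add_distrib, Finset.mul_sum]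
    congr 1
    · rw [Finset.sum_eq_single i]
      · simp
      · intro j _ hj
        rw [Matrix.one_apply_ne (Ne.symm hj)]
        simp
      · simp
    · apply Finset.sum_congr rfl; intro j _; ring
  rw [h1]
  ring

lemma iterate_scaled (F : ι → MvPolynomial ι O) (π : O) (b : ι → O) (k : ℕ)
    (h : ι → MvPolynomial ι O)
    (hh : ∀ u : ι → O, (pt F)^[k] (fun i => b i + π * u i) = fun i => b i + π * pt h u i)
    (n : ℕ) : (pt F)^[k * n] b = fun i => b i + π * (pt h)^[n] 0 i := by
  induction n with
  | zero => funext i; simp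
  | succ n ih =>
    rw [Nat.mul_succ, Nat.add_comm, Function.iterate_add_apply, ih, hh,
      Function.iterate_succ_apply']

/-- `q ∘ h - q` is divisible by `π` when `h` is the identity modulo `π`. -/
lemma dvd_comp_sub (π : O) (w : ι → MvPolynomial ι O) (q : MvPolynomial ι O) :
    ∃ r, aeval (fun i => X i + C π * w i) q - q = C π * r := by
  induction q using MvPolynomial.induction_on with
  | C a => exact ⟨0, by simp⟩
  | add p q hp hq =>
    obtain ⟨r1, h1⟩ := hp
    obtain ⟨r2, h2⟩ := hq
    refine ⟨r1 + r2, ?_⟩
    rw [map_add]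
    linear_combination h1 + h2
  | mul_X p i hp =>
    obtain ⟨r, h⟩ := hp
    refine ⟨r * (X i + C π * w i) + p * w i, ?_⟩
    rw [map_mul, aeval_X]
    linear_combination (X i + C π * w i) * h

/-- The sequence of values of a polynomial along an orbit. -/
noncomputable def valSeq (h : ι → MvPolynomial ι O) (u : ι → O) (q : MvPolynomial ι O) (n : ℕ) : O :=
  eval ((pt h)^[n] u) q

lemma valSeq_fwdDiff (h : ι → MvPolynomial ι O) (u : ι → O) (q : MvPolynomial ι O) :
    fwdDiff 1 (valSeq h u q) = valSeq h u (aeval h q - q) := by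
  funext n
  simp only [fwdDiff, valSeq, map_sub]
  congr 1
  rw [Function.iterate_succ_apply']
  rw [← MvPolynomial.coe_aeval_eq_eval ((pt h)^[n] u)]
  change _ = (aeval ((pt h)^[n] u)) ((aeval h) q)
  rw [← AlgHom.comp_apply, comp_aeval, ← MvPolynomial.coe_aeval_eq_eval]
  rfl

lemma valSeq_fwdDiff_iter (π : O) (w : ι → MvPolynomial ι O) (u : ι → O) (k : ℕ) :
    ∀ q : MvPolynomial ι O, ∃ r : MvPolynomial ι O,
      (fwdDiff 1)^[k] (valSeq (fun i => X i + C π * w i) u q) =
        fun n => π ^ k * valSeq (fun i => X i + C π * w i) u r n := by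
  induction k with
  | zero => intro q; exact ⟨q, by funext n; simp⟩
  | succ k ih =>
    intro q
    obtain ⟨r, hr⟩ := dvd_comp_sub π w q
    obtain ⟨r', hr'⟩ := ih r
    refine ⟨r', ?_⟩
    rw [Function.iterate_succ_apply, valSeq_fwdDiff, hr]
    have h1 : valSeq (fun i => X i + C π * w i) u (C π * r) =
        π • valSeq (fun i => X i + C π * w i) u r := by
      funext n
      simp [valSeq]
    rw [h1, fwdDiff_iter_const_smul, hr']
    funext n
    simp only [Pi.smul_apply, smul_eq_mul]
    ring

lemma valSeq_newton (π : O) (w : ι → MvPolynomial ι O) (u : ι → O) (q : MvPolynomial ι O) :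
    ∃ z : ℕ → O, ∀ n, valSeq (fun i => X i + C π * w i) u q n =
      ∑ k ∈ Finset.range (n + 1), (n.choose k : O) * (π ^ k * z k) := by
  choose r hr using fun k => valSeq_fwdDiff_iter π w u k q
  refine ⟨fun k => valSeq (fun i => X i + C π * w i) u (r k) 0, fun n => ?_⟩
  have h1 := shift_eq_sum_fwdDiff_iter (1 : ℕ) (valSeq (fun i => X i + C π * w i) u q) n 0
  simp only [zero_add, smul_eq_mul, mul_one] at h1
  rw [h1]
  apply Finset.sum_congr rfl
  intro k _
  rw [hr k]
  simp

end Pool.Agent.H936R2
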