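import Pool.Agent.H936R2.Crit

set_option autoImplicit false

/-! The criterion for endomorphisms of projective space. -/

namespace Pool.Agent.H936R2

open MvPolynomial

lemma exists_primitive {K : Type} [NormedField K] [IsUltrametricDist K] {N : ℕ}
    (b : Fin (N + 1) → K) (hb : b ≠ 0) :
    ∃ (c : K) (b' : Fin (N + 1) → unitBall K), c ≠ 0 ∧ (∀ i, (b' i : K) = c * b i) ∧
      (fun i => res K (b' i)) ≠ 0 := by
  obtain ⟨i0, -, hmax⟩ := Finset.exists_max_image (Finset.univ : Finset (Fin (N + 1)))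
    (fun i => ‖b i‖) ⟨0, Finset.mem_univ _⟩
  have hi0 : b i0 ≠ 0 := by
    intro h0
    apply hb
    funext i
    have := hmax i (Finset.mem_univ _)
    rw [h0, norm_zero] at this
    exact norm_le_zero_iff.1 this
  have hpos : 0 < ‖b i0‖ := norm_pos_iff.2 hi0
  refine ⟨(b i0)⁻¹, fun i => ⟨(b i0)⁻¹ * b i, ?_⟩, inv_ne_zero hi0, fun i => rfl, ?_⟩
  · rw [mem_unitBall, norm_mul, norm_inv, inv_mul_le_iff₀ hpos, mul_one]
    exact hmax i (Finset.mem_univ _)
  · intro h0
    have h1 := congrFun h0 i0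
    simp only [Pi.zero_apply] at h1
    rw [res_eq_zero_iff] at h1
    simp only at h1
    rw [inv_mul_cancel₀ hi0, norm_one] at h1
    exact lt_irrefl _ h1

lemma pt_ne_zero {K : Type} [Field K] {N : ℕ} (F : Fin (N + 1) → MvPolynomial (Fin (N + 1)) K)
    (h1 : ∀ x : Fin (N + 1) → K, (∀ i, eval x (F i) = 0) → x = 0) (x : Fin (N + 1) → K)
    (hx : x ≠ 0) (n : ℕ) : (pt F)^[n] x ≠ 0 := by
  induction n with
  | zero => exact hx
  | succ n ih =>
    rw [Function.iterate_succ_apply']
    intro h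
    exact ih (h1 _ fun i => congrFun h i)

theorem criterion (p : ℕ) [hp : Fact p.Prime] (N d : ℕ)
    (f : Fin (N + 1) → MvPolynomial (Fin (N + 1)) ℂ) (hf : ∀ i, (f i).IsHomogeneous d)
    (τ : ℂ →+* PadicAlgCl p)
    (F : Fin (N + 1) → MvPolynomial (Fin (N + 1)) (unitBall (PadicAlgCl p)))
    (hτ : ∀ i, map τ (f i) = map (unitBall (PadicAlgCl p)).subtype (F i))
    (h1 : ∀ x : Fin (N + 1) → ResF (PadicAlgCl p),
      (∀ i, eval x (map (res (PadicAlgCl p)) (F i)) = 0) → x = 0)
    (h2 : ∀ x : Fin (N + 1) → ResF (PadicAlgCl p), x ≠ 0 → ∀ m : ℕ, 0 < m →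
      (pt fun i => map (res (PadicAlgCl p)) (F i))^[m] x = x →
      (jac (fun i => map (res (PadicAlgCl p)) (F i)) x).det ≠ 0) :
    (∀ x : Fin (N + 1) → ℂ, (∀ i, eval x (f i) = 0) → x = 0) ∧
    ∀ S : Set (MvPolynomial (Fin (N + 1)) ℂ), (∀ g ∈ S, ∃ e : ℕ, g.IsHomogeneous e) →
      ∀ a : Fin (N + 1) → ℂ, a ≠ 0 → ∃ T : Finset (ℕ × ℕ),
        {n : ℕ | ∀ g ∈ S,
            eval ((fun x : Fin (N + 1) → ℂ => fun i => eval x (f i))^[n] a) g = 0}
          = {n : ℕ | ∃ q ∈ T, ∃ m : ℕ, n = q.1 * m + q.2} := by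
  set K := PadicAlgCl p with hK
  set FK : Fin (N + 1) → MvPolynomial (Fin (N + 1)) K := fun i => map τ (f i) with hFK
  have hFKhom : ∀ i, (FK i).IsHomogeneous d := fun i => (hf i).map τ
  have hFK' : FK = fun i => map (unitBall K).subtype (F i) := funext hτ
  have htaune : ∀ x : Fin (N + 1) → ℂ, x ≠ 0 → (fun i => τ (x i)) ≠ 0 := by
    intro x hx h0
    apply hx
    funext i
    have := congrFun h0 i
    exact (map_eq_zero τ).1 this
  -- orbit of a primitive vector, reduced
  have hprim : ∀ a : Fin (N + 1) → ℂ, a ≠ 0 → ∃ (c : K) (b : Fin (N + 1) → unitBall K), c ≠ 0 ∧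
      (fun i => res K (b i)) ≠ 0 ∧ ∀ n, (fun i => (((pt F)^[n] b i : unitBall K) : K)) =
        fun i => c ^ d ^ n * τ ((pt f)^[n] a i) := by
    intro a ha
    obtain ⟨c, b, hc, hb, hres⟩ := exists_primitive (fun i => τ (a i)) (htaune a ha)
    refine ⟨c, b, hc, hres, fun n => ?_⟩
    have e1 := pt_map (unitBall K).subtype F b n
    have e2 := pt_map τ f a n
    have e3 := iterate_scale FK d hFKhom c (fun i => τ (a i)) n
    have e4 : (fun i => (unitBall K).subtype (b i)) = fun i => c * τ (a i) := funext hb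
    rw [← hFK', e4, e3] at e1
    rw [e2] at e1
    exact e1.symm
  constructor
  · intro x hx
    by_contra hne
    obtain ⟨c, b, hc, hres, hit⟩ := hprim x hne
    apply hres
    apply h1
    intro i
    have e1 := pt_map (res K) F b 1
    simp only [Function.iterate_one] at e1
    have e2 := congrFun e1 i
    simp only [pt] at e2
    rw [e2, res_eq_zero_iff]
    have e3 := congrFun (hit 1) i
    simp only [Function.iterate_one, pt, hx i, map_zero, mul_zero] at e3
    rw [e3, norm_zero]
    exact one_pos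
  · intro S hS a ha
    obtain ⟨c, b, hc, hres, hit⟩ := hprim a ha
    have hFb : ∀ x : Fin (N + 1) → ResF K, x ≠ 0 → ∀ n,
        (pt fun i => map (res K) (F i))^[n] x ≠ 0 := fun x hx n => pt_ne_zero _ h1 x hx n
    obtain ⟨M, m, hm, hper⟩ := res_orbit_periodic p F b
    have hdet : ∀ n, M ≤ n → IsUnit (jac F ((pt F)^[n] b)).det := by
      intro n hn
      apply isUnit_of_res_ne_zero
      have e1 := h2 (fun i => res K ((pt F)^[n] b i)) (by
        rw [← pt_map]
        exact hFb _ hres n) m hm (hper n hn)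
      rw [jac_map] at e1
      rw [RingHom.map_det]
      exact e1
    obtain ⟨n0, k, hk, hret⟩ := return_set p F b M hdet
    apply exists_progressions _ n0 k hk
    intro r hinf t
    have hiff : ∀ n, (∀ g ∈ S, eval ((fun x : Fin (N + 1) → ℂ => fun i => eval x (f i))^[n] a) g = 0) ↔
        ∀ P ∈ (fun g => map τ g) '' S, eval (fun i => (((pt F)^[n] b i : unitBall K) : K)) P = 0 := by
      intro n
      have hval : ∀ g ∈ S, (eval (fun i => (((pt F)^[n] b i : unitBall K) : K)) (map τ g) = 0 ↔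
          eval ((pt f)^[n] a) g = 0) := by
        intro g hg
        obtain ⟨e, he⟩ := hS g hg
        rw [hit n, eval_scale _ e (he.map τ)]
        have e1 : eval (fun i => τ ((pt f)^[n] a i)) (map τ g) = τ (eval ((pt f)^[n] a) g) := by
          rw [eval_map]
          have h := eval₂_comp_left τ (RingHom.id _) ((pt f)^[n] a) g
          rw [RingHom.comp_id] at h
          exact h.symm
        rw [e1, mul_eq_zero, map_eq_zero]
        constructor
        · rintro (h | h)
          · exact absurd h (pow_ne_zero _ (pow_ne_zero _ hc))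
          · exact h
        · exact Or.inr
      constructor
      · rintro h P ⟨g, hg, rfl⟩
        exact (hval g hg).2 (h g hg)
      · intro h g hg
        exact (hval g hg).1 (h _ ⟨g, hg, rfl⟩)
    simp only [Set.mem_ofPred_eq, hiff] at hinf ⊢
    exact hret _ r hinf t

/-- An abstract embedding of `ℂ` into the algebraic closure of `ℚ_p`. -/
lemma exists_embedding (p : ℕ) [hp : Fact p.Prime] : Nonempty (ℂ →+* PadicAlgCl p) := by
  have h1 : Cardinal.mk ℂ = Cardinal.continuum := Cardinal.mk_complex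
  have h2 : Cardinal.continuum ≤ Cardinal.mk ℚ_[p] :=
    continuum_le_cardinal_of_nontriviallyNormedField ℚ_[p]
  have h3 : Cardinal.mk ℚ_[p] ≤ Cardinal.continuum := by
    have h4 : Cardinal.mk ℚ_[p] ≤ Cardinal.mk (CauSeq ℚ (padicNorm p)) :=
      Cardinal.mk_le_of_surjective (f := fun x => (Quotient.mk _ x : ℚ_[p])) (by
        intro y
        exact Quotient.exists_rep y)
    refine h4.trans ?_
    have h5 : Cardinal.mk (CauSeq ℚ (padicNorm p)) ≤ Cardinal.mk (ℕ → ℚ) :=
      Cardinal.mk_le_of_injective (f := fun x => (x : ℕ → ℚ)) (by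
        intro x y hxy
        exact Subtype.ext hxy)
    refine h5.trans ?_
    simp
  have h6 : Cardinal.mk ℚ_[p] = Cardinal.continuum := le_antisymm h3 h2
  have h7 : Cardinal.mk (PadicAlgCl p) = Cardinal.continuum := by
    apply le_antisymm
    · have := Algebra.IsAlgebraic.cardinalMk_le_max ℚ_[p] (PadicAlgCl p)
      rw [h6, max_eq_left Cardinal.aleph0_le_continuum] at this
      exact this
    · rw [← h6]
      exact Cardinal.mk_le_of_injective (algebraMap ℚ_[p] (PadicAlgCl p)).injective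
  obtain ⟨e⟩ := IsAlgClosed.ringEquiv_of_equiv_of_charZero (K := ℂ) (L := PadicAlgCl p)
    (by rw [h1]; exact Cardinal.aleph0_lt_continuum) (Cardinal.eq.1 (by rw [h1, h7]))
  exact ⟨e.toRingHom⟩

end Pool.Agent.H936R2
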