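import Pool.Agent.H936R2.Crit

set_option autoImplicit false

/-! Return sets of integral polynomial maps of affine space at points with a `p`-adically integral
étale orbit. -/

namespace Pool.Agent.H936R2

open MvPolynomial

section descent

variable {E : Type} [Field E] {L : Type} [Field L] [Algebra E L] {ι : Type}

/-- Apply a linear functional to the coefficients. -/
noncomputable def coeffMap (lam : L →ₗ[E] E) (f : MvPolynomial ι L) : MvPolynomial ι E :=
  ∑ κ ∈ f.support, monomial κ (lam (f.coeff κ))

lemma eval_coeffMap (lam : L →ₗ[E] E) (f : MvPolynomial ι L) (x : ι → E) :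
    eval x (coeffMap lam f) = lam (eval (fun i => algebraMap E L (x i)) f) := by
  rw [coeffMap, map_sum, eval_eq, map_sum]
  apply Finset.sum_congr rfl
  intro κ _
  rw [eval_monomial]
  have h1 : f.coeff κ * ∏ i ∈ κ.support, algebraMap E L (x i) ^ κ i =
      (∏ i ∈ κ.support, x i ^ κ i) • f.coeff κ := by
    rw [Algebra.smul_def, map_prod, mul_comm]
    simp only [map_pow]
  rw [h1, map_smul, smul_eq_mul, mul_comm]
  rfl

lemma eval_eq_zero_iff_coeffMap (f : MvPolynomial ι L) (x : ι → E) :
    eval (fun i => algebraMap E L (x i)) f = 0 ↔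
      ∀ lam : L →ₗ[E] E, eval x (coeffMap lam f) = 0 := by
  simp only [eval_coeffMap]
  exact (Module.forall_dual_apply_eq_zero_iff E _).symm

end descent

variable {ι : Type} [Fintype ι] [DecidableEq ι]

/-- The polynomial map with integer coefficients over a ring. -/
noncomputable def overRing (O : Type) [CommRing O] (F : ι → MvPolynomial ι ℤ) :
    ι → MvPolynomial ι O := fun i => map (Int.castRingHom O) (F i)

omit [Fintype ι] [DecidableEq ι] in
lemma overRing_map {O O' : Type} [CommRing O] [CommRing O'] (φ : O →+* O')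
    (F : ι → MvPolynomial ι ℤ) : (fun i => map φ (overRing O F i)) = overRing O' F := by
  funext i
  simp only [overRing]
  rw [map_map]
  congr 2
  exact RingHom.ext_int _ _

/-- **Return sets at points with a `p`-adically integral, eventually étale orbit.** -/
theorem return_set_affine (p : ℕ) [hp : Fact p.Prime] (F : ι → MvPolynomial ι ℤ) (α : ι → ℂ)
    (E : Subfield ℂ) (hα : ∀ i, α i ∈ E) (σ : E →+* PadicAlgCl p)
    (hint : ∀ i, ‖σ ⟨α i, hα i⟩‖ ≤ 1) (M : ℕ)
    (hdet : ∀ n, M ≤ n → ‖σ (jac (overRing E F) ((pt (overRing E F))^[n] fun i => ⟨α i, hα i⟩)).det‖ = 1)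
    (S : Set (MvPolynomial ι ℂ)) :
    ∃ T : Finset (ℕ × ℕ), {n : ℕ | ∀ f ∈ S, eval ((pt (overRing ℂ F))^[n] α) f = 0} =
      {n : ℕ | ∃ q ∈ T, ∃ m : ℕ, n = q.1 * m + q.2} := by
  set K := PadicAlgCl p with hK
  let αE : ι → E := fun i => ⟨α i, hα i⟩
  let a : ι → unitBall K := fun i => ⟨σ (αE i), hint i⟩
  -- comparison of orbits
  have horbC : ∀ n, (fun i => algebraMap E ℂ ((pt (overRing E F))^[n] αE i)) =
      (pt (overRing ℂ F))^[n] α := by
    intro n
    have h1 := pt_map (algebraMap E ℂ) (overRing E F) αE n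
    rw [overRing_map] at h1
    rw [← h1]
    rfl
  have horbK : ∀ n, (fun i => σ ((pt (overRing E F))^[n] αE i)) =
      fun i => (((pt (overRing (unitBall K) F))^[n] a i : unitBall K) : K) := by
    intro n
    have h1 := pt_map σ (overRing E F) αE n
    have h2 := pt_map (unitBall K).subtype (overRing (unitBall K) F) a n
    rw [overRing_map] at h1 h2
    rw [← h1]
    exact h2
  have hdet' : ∀ n, M ≤ n → IsUnit (jac (overRing (unitBall K) F)
      ((pt (overRing (unitBall K) F))^[n] a)).det := by
    intro n hn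
    rw [unitBall_isUnit_iff]
    rw [← hdet n hn]
    congr 1
    have h1 := jac_map σ (overRing E F) ((pt (overRing E F))^[n] αE)
    have h2 := jac_map (unitBall K).subtype (overRing (unitBall K) F)
      ((pt (overRing (unitBall K) F))^[n] a)
    rw [overRing_map] at h1 h2
    have h3 : (fun i => (unitBall K).subtype ((pt (overRing (unitBall K) F))^[n] a i)) =
        fun i => σ ((pt (overRing E F))^[n] αE i) := (horbK n).symm
    rw [h3, h1] at h2
    have h4 := congrArg Matrix.det h2
    rw [← RingHom.map_det, ← RingHom.map_det] at h4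
    exact h4.symm
  obtain ⟨n0, k, hk, hret⟩ := return_set p (overRing (unitBall K) F) a M hdet'
  apply exists_progressions _ n0 k hk
  intro r hinf t
  have hiff : ∀ n, (∀ f ∈ S, eval ((pt (overRing ℂ F))^[n] α) f = 0) ↔
      ∀ P ∈ {P : MvPolynomial ι K | ∃ f ∈ S, ∃ lam : ℂ →ₗ[E] E, P = map σ (coeffMap lam f)},
        eval (fun i => (((pt (overRing (unitBall K) F))^[n] a i : unitBall K) : K)) P = 0 := by
    intro n
    have hval : ∀ f : MvPolynomial ι ℂ, ∀ lam : ℂ →ₗ[E] E,
        (eval (fun i => (((pt (overRing (unitBall K) F))^[n] a i : unitBall K) : K))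
          (map σ (coeffMap lam f)) = 0 ↔ eval ((pt (overRing E F))^[n] αE) (coeffMap lam f) = 0) := by
      intro f lam
      rw [← horbK n]
      have e1 : eval (fun i => σ ((pt (overRing E F))^[n] αE i)) (map σ (coeffMap lam f)) =
          σ (eval ((pt (overRing E F))^[n] αE) (coeffMap lam f)) := by
        rw [eval_map]
        have h := eval₂_comp_left σ (RingHom.id _) ((pt (overRing E F))^[n] αE) (coeffMap lam f)
        rw [RingHom.comp_id] at h
        exact h.symm
      rw [e1, map_eq_zero]
    constructor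
    · rintro h P ⟨f, hf, lam, rfl⟩
      rw [hval]
      have h1 := h f hf
      rw [← horbC n, eval_eq_zero_iff_coeffMap] at h1
      exact h1 lam
    · intro h f hf
      rw [← horbC n, eval_eq_zero_iff_coeffMap]
      intro lam
      rw [← hval]
      exact h _ ⟨f, hf, lam, rfl⟩
  simp only [Set.mem_ofPred_eq, hiff] at hinf ⊢
  exact hret _ r hinf t

end Pool.Agent.H936R2
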