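import Pool.Agent.H936R2.Zeros
import Pool.Agent.H936R2.Poly

set_option autoImplicit false

/-! The p-adic arc lemma for polynomial self maps of affine space. -/

namespace Pool.Agent.H936R2

open MvPolynomial

/-- The closed unit ball of an ultrametric field as a subring. -/
def unitBall (K : Type) [NormedField K] [IsUltrametricDist K] : Subring K where
  carrier := {x | ‖x‖ ≤ 1}
  mul_mem' := by
    intro a b ha hb
    simp only [Set.mem_ofPred_eq] at *
    rw [norm_mul]
    exact mul_le_one₀ ha (norm_nonneg _) hb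
  one_mem' := by simp
  add_mem' := by
    intro a b ha hb
    simp only [Set.mem_ofPred_eq] at *
    exact (IsUltrametricDist.norm_add_le_max a b).trans (max_le ha hb)
  zero_mem' := by simp
  neg_mem' := by
    intro a ha
    simp only [Set.mem_ofPred_eq] at *
    rwa [norm_neg]

section

variable {K : Type} [NormedField K] [IsUltrametricDist K]

lemma mem_unitBall {x : K} : x ∈ unitBall K ↔ ‖x‖ ≤ 1 := Iff.rfl

lemma unitBall_norm_le (x : unitBall K) : ‖(x : K)‖ ≤ 1 := x.2

lemma unitBall_isUnit_iff (x : unitBall K) : IsUnit x ↔ ‖(x : K)‖ = 1 := by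
  constructor
  · rintro ⟨u, rfl⟩
    have h1 := unitBall_norm_le (u : unitBall K)
    have h2 := unitBall_norm_le ((u⁻¹ : (unitBall K)ˣ) : unitBall K)
    have h3 : (((u : unitBall K) : K)) * (((u⁻¹ : (unitBall K)ˣ) : unitBall K) : K) = 1 := by
      rw [← Subring.coe_mul, Units.mul_inv]; rfl
    have h4 : ‖((u : unitBall K) : K)‖ * ‖(((u⁻¹ : (unitBall K)ˣ) : unitBall K) : K)‖ = 1 := by
      rw [← norm_mul, h3, norm_one]
    apply le_antisymm h1
    by_contra h
    rw [not_le] at h
    have : ‖((u : unitBall K) : K)‖ * ‖(((u⁻¹ : (unitBall K)ˣ) : unitBall K) : K)‖ < 1 := by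
      calc _ ≤ ‖((u : unitBall K) : K)‖ * 1 := mul_le_mul_of_nonneg_left h2 (norm_nonneg _)
        _ = ‖((u : unitBall K) : K)‖ := mul_one _
        _ < 1 := h
    linarith
  · intro h
    have hne : (x : K) ≠ 0 := by
      intro h0; rw [h0, norm_zero] at h; exact zero_ne_one h
    refine ⟨⟨x, ⟨(x : K)⁻¹, ?_⟩, ?_, ?_⟩, rfl⟩
    · rw [mem_unitBall, norm_inv, h, inv_one]
    · apply Subtype.ext
      exact mul_inv_cancel₀ hne
    · apply Subtype.ext
      exact inv_mul_cancel₀ hne

lemma norm_prime_pow_le_factorial (p : ℕ) [hp : Fact p.Prime] (hpK : ‖(p : K)‖ < 1) (k : ℕ) :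
    ‖(p : K)‖ ^ k ≤ ‖((k.factorial : ℕ) : K)‖ := by
  obtain ⟨v, m, hm, hk⟩ := Nat.exists_eq_pow_mul_and_not_dvd (Nat.factorial_ne_zero k) p
    hp.out.ne_one
  have hmn : ‖(m : K)‖ = 1 := by
    have hc : Nat.Coprime m p := by
      rw [Nat.coprime_comm]
      exact (Nat.Prime.coprime_iff_not_dvd hp.out).2 hm
    have hb : ((m : ℤ) * Nat.gcdA m p + (p : ℤ) * Nat.gcdB m p) = 1 := by
      rw [← Nat.gcd_eq_gcd_ab]
      exact_mod_cast hc
    have hbK : ((m : K) * (Nat.gcdA m p : K) + (p : K) * (Nat.gcdB m p : K)) = 1 := by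
      exact_mod_cast congrArg (Int.cast : ℤ → K) hb
    have h1 : ‖(m : K)‖ ≤ 1 := IsUltrametricDist.norm_natCast_le_one K m
    apply le_antisymm h1
    by_contra hlt
    rw [not_le] at hlt
    have h2 : ‖(m : K) * (Nat.gcdA m p : K)‖ < 1 := by
      rw [norm_mul]
      calc _ ≤ ‖(m : K)‖ * 1 := mul_le_mul_of_nonneg_left (norm_intCast_le _) (norm_nonneg _)
        _ < 1 := by rwa [mul_one]
    have h3 : ‖(p : K) * (Nat.gcdB m p : K)‖ < 1 := by
      rw [norm_mul]
      calc _ ≤ ‖(p : K)‖ * 1 := mul_le_mul_of_nonneg_left (norm_intCast_le _) (norm_nonneg _)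
        _ < 1 := by rwa [mul_one]
    have h4 := IsUltrametricDist.norm_add_le_max ((m : K) * (Nat.gcdA m p : K))
      ((p : K) * (Nat.gcdB m p : K))
    rw [hbK, norm_one] at h4
    exact absurd h4 (not_le.2 (max_lt h2 h3))
  have hv : v ≤ k := by
    have h1 : padicValNat p k.factorial = v := by
      rw [hk, padicValNat.mul (pow_ne_zero _ hp.out.ne_zero) (by rintro rfl; exact hm (dvd_zero _)),
        padicValNat.prime_pow, padicValNat.eq_zero_of_not_dvd hm, add_zero]
    rw [← h1]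
    have h2 := sub_one_mul_padicValNat_factorial (p := p) k
    have h3 : 1 ≤ p - 1 := by have := hp.out.two_le; omega
    calc padicValNat p k.factorial ≤ (p - 1) * padicValNat p k.factorial :=
          Nat.le_mul_of_pos_left _ h3
      _ = k - (p.digits k).sum := h2
      _ ≤ k := Nat.sub_le _ _
  rw [hk]
  push_cast
  rw [norm_mul, norm_pow, hmn, mul_one]
  exact pow_le_pow_of_le_one (norm_nonneg _) hpK.le hv

/-- Clearing denominators. -/
lemma exists_scale (p : ℕ) [hp : Fact p.Prime] (hpK : ‖(p : K)‖ < 1) [CharZero K] {ι : Type}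
    (P : MvPolynomial ι K) :
    ∃ (c : K) (Q : MvPolynomial ι (unitBall K)), c ≠ 0 ∧
      map (unitBall K).subtype Q = C c * P := by
  classical
  obtain ⟨B, hB⟩ : ∃ B : ℝ, ∀ κ, ‖P.coeff κ‖ ≤ B := by
    refine ⟨∑ κ ∈ P.support, ‖P.coeff κ‖, fun κ => ?_⟩
    by_cases h : κ ∈ P.support
    · exact Finset.single_le_sum (f := fun κ => ‖P.coeff κ‖) (fun _ _ => norm_nonneg _) h
    · rw [notMem_support_iff] at h
      rw [h, norm_zero]
      exact Finset.sum_nonneg fun _ _ => norm_nonneg _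
  have hB0 : 0 ≤ B := (norm_nonneg _).trans (hB 0)
  obtain ⟨m, hm⟩ : ∃ m : ℕ, ‖(p : K)‖ ^ m < 1 / (B + 1) :=
    exists_pow_lt_of_lt_one (by positivity) hpK
  have hc : ∀ κ, ‖(p : K) ^ m * P.coeff κ‖ ≤ 1 := by
    intro κ
    rw [norm_mul, norm_pow]
    calc ‖(p : K)‖ ^ m * ‖P.coeff κ‖ ≤ 1 / (B + 1) * (B + 1) := by
          apply mul_le_mul hm.le ((hB κ).trans (by linarith)) (norm_nonneg _)
          positivity
      _ = 1 := by field_simp
  refine ⟨(p : K) ^ m, ∑ κ ∈ P.support, monomial κ ⟨(p : K) ^ m * P.coeff κ, hc κ⟩,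
    pow_ne_zero _ (Nat.cast_ne_zero.2 hp.out.ne_zero), ?_⟩
  rw [map_sum]
  conv_rhs => rw [P.as_sum, Finset.mul_sum]
  apply Finset.sum_congr rfl
  intro κ _
  rw [map_monomial, C_mul_monomial]
  rfl

end

section

variable {K : Type} [NormedField K] [IsUltrametricDist K] [CharZero K]
variable {ι : Type} [Fintype ι] [DecidableEq ι]

/-- Pull back of a polynomial along the `r`-th iterate. -/
noncomputable def pullback {O : Type} [CommRing O] (F : ι → MvPolynomial ι O) (r : ℕ)
    (Q : MvPolynomial ι O) : MvPolynomial ι O := (fun q => aeval F q)^[r] Q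

omit [Fintype ι] [DecidableEq ι] in
lemma eval_aeval_poly {O : Type} [CommRing O] (G : ι → MvPolynomial ι O) (x : ι → O)
    (Q : MvPolynomial ι O) : eval x (aeval G Q) = eval (fun i => eval x (G i)) Q := by
  rw [← MvPolynomial.coe_aeval_eq_eval x]
  change (aeval x) ((aeval G) Q) = _
  rw [← AlgHom.comp_apply, comp_aeval, ← MvPolynomial.coe_aeval_eq_eval]
  rfl

omit [Fintype ι] [DecidableEq ι] in
lemma eval_pullback {O : Type} [CommRing O] (F : ι → MvPolynomial ι O) (r : ℕ) :
    ∀ (Q : MvPolynomial ι O) (x : ι → O), eval x (pullback F r Q) = eval ((pt F)^[r] x) Q := by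
  induction r with
  | zero => intro Q x; rfl
  | succ r ih =>
    intro Q x
    rw [pullback, Function.iterate_succ_apply]
    change eval x (pullback F r (aeval F Q)) = _
    rw [ih, Function.iterate_succ_apply', ← MvPolynomial.coe_aeval_eq_eval ((pt F)^[r] x)]
    change (aeval ((pt F)^[r] x)) ((aeval F) Q) = _
    rw [← AlgHom.comp_apply, comp_aeval, ← MvPolynomial.coe_aeval_eq_eval]
    rfl

omit [Fintype ι] [DecidableEq ι] in
lemma eval_coe (x : ι → unitBall K) (Q : MvPolynomial ι (unitBall K)) :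
    ((eval x Q : unitBall K) : K) = eval (fun i => (x i : K)) (map (unitBall K).subtype Q) := by
  rw [eval_map]
  have h := eval₂_comp_left (unitBall K).subtype (RingHom.id _) x Q
  rw [RingHom.comp_id] at h
  exact h

/-- **Arc lemma, core form.** -/
theorem arc_core (p : ℕ) [hp : Fact p.Prime] (hpK : ‖(p : K)‖ < 1)
    (F : ι → MvPolynomial ι (unitBall K)) (b : ι → unitBall K) (k : ℕ)
    (v : ι → unitBall K) (B : Matrix ι ι (unitBall K))
    (hb : ∀ i, (pt F)^[k] b i = b i + ((p : unitBall K) ^ 2) ^ 2 * v i)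
    (hA : ∀ i j, itA F b k i j = (1 : Matrix ι ι (unitBall K)) i j + (p : unitBall K) ^ 2 * B i j)
    (r : ℕ) (P : MvPolynomial ι K)
    (hinf : {t : ℕ | eval (fun i => ((pt F)^[k * t + r] b i : K)) P = 0}.Infinite) :
    ∀ t : ℕ, eval (fun i => ((pt F)^[k * t + r] b i : K)) P = 0 := by
  set π : unitBall K := (p : unitBall K) ^ 2 with hπ
  obtain ⟨c, Q, hc, hQ⟩ := exists_scale p hpK P
  obtain ⟨w, hw⟩ := exists_scaled F π b k v B hb hA
  set h : ι → MvPolynomial ι (unitBall K) := fun i => X i + C π * w i with hh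
  have hit := fun n => iterate_scaled F π b k h hw n
  -- the polynomial in the scaled coordinate
  set q : MvPolynomial ι (unitBall K) :=
    aeval (fun i => C (b i) + C π * X i) (pullback F r Q) with hq
  have hval : ∀ t, ((valSeq h 0 q t : unitBall K) : K) =
      c * eval (fun i => ((pt F)^[k * t + r] b i : K)) P := by
    intro t
    have h1 : valSeq h 0 q t = eval ((pt F)^[k * t + r] b) Q := by
      rw [Nat.add_comm, Function.iterate_add_apply, ← eval_pullback, hit, valSeq, hq]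
      rw [eval_aeval_poly]
      congr 2
      funext i
      simp
    rw [h1, eval_coe, hQ]
    simp
  obtain ⟨z, hz⟩ := valSeq_newton π w 0 q
  have hzero := newton_zero (K := K)
    (fun n => ((π ^ n * z n : unitBall K) : K) / ((n.factorial : ℕ) : K))
    (fun n => ((valSeq h 0 q n : unitBall K) : K)) ?_ ?_ ?_
  · intro t
    have h1 := hzero t
    rw [hval] at h1
    exact (mul_eq_zero.1 h1).resolve_left hc
  · intro n
    rw [hh, hz n]
    push_cast
    apply Finset.sum_congr rfl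
    intro j hj
    rw [Nat.descFactorial_eq_factorial_mul_choose]
    have : ((j.factorial : ℕ) : K) ≠ 0 := Nat.cast_ne_zero.2 (Nat.factorial_ne_zero j)
    push_cast
    field_simp
  · rw [Metric.tendsto_atTop]
    intro ε hε
    obtain ⟨m, hm⟩ := exists_pow_lt_of_lt_one hε hpK
    refine ⟨m, fun n hn => ?_⟩
    rw [dist_zero_right, norm_div]
    have h1 : ‖((π ^ n * z n : unitBall K) : K)‖ ≤ ‖(p : K)‖ ^ n * ‖(p : K)‖ ^ n := by
      rw [hπ]
      push_cast
      rw [norm_mul, norm_pow, norm_pow]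
      calc (‖(p : K)‖ ^ 2) ^ n * ‖(z n : K)‖ ≤ (‖(p : K)‖ ^ 2) ^ n * 1 :=
            mul_le_mul_of_nonneg_left (unitBall_norm_le _) (by positivity)
        _ = ‖(p : K)‖ ^ n * ‖(p : K)‖ ^ n := by rw [mul_one]; ring
    have h2 := norm_prime_pow_le_factorial p hpK n
    have hp0 : 0 < ‖(p : K)‖ := norm_pos_iff.2 (Nat.cast_ne_zero.2 hp.out.ne_zero)
    have h3 : 0 < ‖((n.factorial : ℕ) : K)‖ := norm_pos_iff.2 (Nat.cast_ne_zero.2 (Nat.factorial_ne_zero n))
    calc ‖((π ^ n * z n : unitBall K) : K)‖ / ‖((n.factorial : ℕ) : K)‖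
        ≤ (‖(p : K)‖ ^ n * ‖(p : K)‖ ^ n) / ‖(p : K)‖ ^ n := by
          apply div_le_div₀ (by positivity) h1 (by positivity) h2
      _ = ‖(p : K)‖ ^ n := by field_simp
      _ ≤ ‖(p : K)‖ ^ m := pow_le_pow_of_le_one hp0.le hpK.le hn
      _ < ε := hm
  · refine hinf.mono fun t ht => ?_
    rw [Set.mem_ofPred_eq] at *
    rw [hval, ht, mul_zero]

end

end Pool.Agent.H936R2
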