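import Pool.Agent.H936R2.Per

set_option autoImplicit false

/-! Dynamical Mordell-Lang for endomorphisms of projective space whose reduction has no ramified
periodic point. -/

namespace Pool.Agent.H936R2

open MvPolynomial

section residue

variable (K : Type) [NormedField K] [IsUltrametricDist K]

/-- The open unit ball as an ideal of the closed unit ball. -/
def maxIdeal : Ideal (unitBall K) where
  carrier := {x | ‖(x : K)‖ < 1}
  add_mem' := by
    intro a b ha hb
    simp only [Set.mem_ofPred_eq] at *
    exact lt_of_le_of_lt (IsUltrametricDist.norm_add_le_max (a : K) b) (max_lt ha hb)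
  zero_mem' := by simp
  smul_mem' := by
    intro c x hx
    simp only [Set.mem_ofPred_eq, smul_eq_mul, Subring.coe_mul, norm_mul] at *
    calc ‖(c : K)‖ * ‖(x : K)‖ ≤ 1 * ‖(x : K)‖ :=
          mul_le_mul_of_nonneg_right (unitBall_norm_le c) (norm_nonneg _)
      _ < 1 := by rwa [one_mul]

lemma mem_maxIdeal (x : unitBall K) : x ∈ maxIdeal K ↔ ‖(x : K)‖ < 1 := Iff.rfl

instance maxIdeal_isMaximal : (maxIdeal K).IsMaximal := by
  rw [Ideal.isMaximal_iff]
  constructor
  · rw [mem_maxIdeal]
    simp
  · intro J x hJ hx hxJ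
    rw [mem_maxIdeal, not_lt] at hx
    have hu : IsUnit x := (unitBall_isUnit_iff x).2 (le_antisymm (unitBall_norm_le x) hx)
    exact (Ideal.eq_top_of_isUnit_mem J hxJ hu) ▸ Submodule.mem_top

/-- The residue field. -/
abbrev ResF : Type := unitBall K ⧸ maxIdeal K

noncomputable instance : Field (ResF K) := Ideal.Quotient.field _

/-- The residue map. -/
abbrev res : unitBall K →+* ResF K := Ideal.Quotient.mk _

variable {K}

lemma res_eq_zero_iff (x : unitBall K) : res K x = 0 ↔ ‖(x : K)‖ < 1 := by
  rw [Ideal.Quotient.eq_zero_iff_mem, mem_maxIdeal]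

lemma isUnit_of_res_ne_zero (x : unitBall K) (h : res K x ≠ 0) : IsUnit x := by
  rw [unitBall_isUnit_iff]
  rw [Ne, res_eq_zero_iff, not_lt] at h
  exact le_antisymm (unitBall_norm_le x) h

end residue

section

variable {ι : Type} [Fintype ι] [DecidableEq ι]

lemma pt_map {O O' : Type} [CommRing O] [CommRing O'] (φ : O →+* O') (F : ι → MvPolynomial ι O)
    (x : ι → O) (n : ℕ) :
    (pt fun i => map φ (F i))^[n] (fun i => φ (x i)) = fun i => φ ((pt F)^[n] x i) := by
  induction n with
  | zero => rfl
  | succ n ih =>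
    rw [Function.iterate_succ_apply', ih, Function.iterate_succ_apply']
    funext i
    simp only [pt]
    rw [eval_map]
    have h := eval₂_comp_left φ (RingHom.id _) ((pt F)^[n] x) (F i)
    rw [RingHom.comp_id] at h
    exact h.symm

lemma jac_map {O O' : Type} [CommRing O] [CommRing O'] (φ : O →+* O') (F : ι → MvPolynomial ι O)
    (x : ι → O) :
    jac (fun i => map φ (F i)) (fun i => φ (x i)) = φ.mapMatrix (jac F x) := by
  ext i j
  simp only [jac, RingHom.mapMatrix_apply, Matrix.map_apply]
  rw [pderiv_map, eval_map]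
  have h := eval₂_comp_left φ (RingHom.id _) x (pderiv j (F i))
  rw [RingHom.comp_id] at h
  exact h.symm

/-- Orbits stay in a finite dimensional space. -/
lemma orbit_finiteDimensional (p : ℕ) [hp : Fact p.Prime]
    (F : ι → MvPolynomial ι (unitBall (PadicAlgCl p))) (a : ι → unitBall (PadicAlgCl p)) :
    ∃ L : Submodule ℚ_[p] (PadicAlgCl p), FiniteDimensional ℚ_[p] L ∧
      ∀ n i, (((pt F)^[n] a i : unitBall (PadicAlgCl p)) : PadicAlgCl p) ∈ L := by
  classical
  let s : Set (PadicAlgCl p) := (Set.range fun i => (a i : PadicAlgCl p)) ∪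
    ⋃ i, ⋃ κ ∈ (F i).support, {(((F i).coeff κ : unitBall (PadicAlgCl p)) : PadicAlgCl p)}
  have hs : s.Finite := by
    apply (Set.finite_range _).union
    apply Set.finite_iUnion
    intro i
    exact Set.Finite.biUnion (Finset.finite_toSet _) fun κ _ => Set.finite_singleton _
  have : Finite s := hs
  let L0 := IntermediateField.adjoin ℚ_[p] s
  have hfd : FiniteDimensional ℚ_[p] L0 := IntermediateField.finiteDimensional_adjoin
    fun x _ => (Algebra.IsAlgebraic.isAlgebraic x).isIntegral
  let L : Submodule ℚ_[p] (PadicAlgCl p) := Subalgebra.toSubmodule L0.toSubalgebra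
  have hfd' : FiniteDimensional ℚ_[p] L := hfd
  let R : Subring (unitBall (PadicAlgCl p)) :=
    (L0.toSubring).comap (unitBall (PadicAlgCl p)).subtype
  have hR : ∀ x : unitBall (PadicAlgCl p), x ∈ R ↔ (x : PadicAlgCl p) ∈ L0 := fun x => Iff.rfl
  have haR : ∀ i, a i ∈ R := by
    intro i
    rw [hR]
    apply IntermediateField.subset_adjoin
    left
    exact ⟨i, rfl⟩
  have hFR : ∀ i κ, (F i).coeff κ ∈ R := by
    intro i κ
    by_cases h : κ ∈ (F i).support
    · rw [hR]
      apply IntermediateField.subset_adjoin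
      right
      rw [Set.mem_iUnion]
      refine ⟨i, ?_⟩
      rw [Set.mem_iUnion₂]
      exact ⟨κ, h, rfl⟩
    · rw [notMem_support_iff] at h
      rw [h]
      exact R.zero_mem
  refine ⟨L, hfd', ?_⟩
  intro n
  induction n with
  | zero => exact haR
  | succ n ih =>
    intro i
    rw [Function.iterate_succ_apply']
    exact eval_mem_subring R _ ih _ (hFR i)

/-- The reduction of an orbit is eventually periodic. -/
lemma res_orbit_periodic (p : ℕ) [hp : Fact p.Prime]
    (F : ι → MvPolynomial ι (unitBall (PadicAlgCl p))) (a : ι → unitBall (PadicAlgCl p)) :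
    ∃ N m, 0 < m ∧ ∀ n, N ≤ n →
      (pt fun i => map (res (PadicAlgCl p)) (F i))^[m] (fun i => res _ ((pt F)^[n] a i)) =
        fun i => res _ ((pt F)^[n] a i) := by
  obtain ⟨L, hL, horb⟩ := orbit_finiteDimensional p F a
  obtain ⟨n, m, hnm, hclose⟩ := compact_pair p L
    (fun n i => (((pt F)^[n] a i : unitBall (PadicAlgCl p)) : PadicAlgCl p)) horb
    (fun n i => unitBall_norm_le _) 1 one_pos
  have heq : ∀ j, (fun i => res (PadicAlgCl p) ((pt F)^[m + j] a i)) =
      fun i => res (PadicAlgCl p) ((pt F)^[n + j] a i) := by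
    intro j
    induction j with
    | zero =>
      funext i
      rw [← sub_eq_zero, ← map_sub, res_eq_zero_iff]
      exact hclose i
    | succ j ih =>
      have h1 := pt_map (res (PadicAlgCl p)) F ((pt F)^[m + j] a) 1
      have h2 := pt_map (res (PadicAlgCl p)) F ((pt F)^[n + j] a) 1
      simp only [Function.iterate_one] at h1 h2
      rw [← Nat.add_assoc, ← Nat.add_assoc, Function.iterate_succ_apply',
        Function.iterate_succ_apply', ← h1, ← h2, ih]
  refine ⟨n, m - n, by omega, fun n' hn' => ?_⟩
  rw [pt_map]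
  obtain ⟨j, rfl⟩ : ∃ j, n' = n + j := ⟨n' - n, by omega⟩
  rw [← heq j]
  funext i
  rw [← Function.iterate_add_apply]
  have he : m - n + (n + j) = m + j := by omega
  rw [he]

end

lemma eval_scale {K : Type} [Field K] {ι : Type} (P : MvPolynomial ι K) (e : ℕ)
    (hP : P.IsHomogeneous e) (c : K) (x : ι → K) :
    eval (fun i => c * x i) P = c ^ e * eval x P := by
  rw [eval_eq, eval_eq, Finset.mul_sum]
  apply Finset.sum_congr rfl
  intro κ hκ
  have hdeg : κ.degree = e := by
    have := hP (mem_support_iff.1 hκ)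
    rw [Finsupp.degree_eq_weight_one]; exact this
  have h3 : ∏ j ∈ κ.support, (c * x j) ^ κ j =
      c ^ e * ∏ j ∈ κ.support, (x j) ^ κ j := by
    rw [Finset.prod_congr rfl fun j _ => mul_pow _ _ _, Finset.prod_mul_distrib,
      Finset.prod_pow_eq_pow_sum]
    congr 2
  rw [h3]
  ring

/-- Iterates of a tuple of forms of degree `d` scale by `c ^ d ^ n`. -/
lemma iterate_scale {K : Type} [Field K] {ι : Type} (F : ι → MvPolynomial ι K) (d : ℕ)
    (hF : ∀ i, (F i).IsHomogeneous d) (c : K) (x : ι → K) (n : ℕ) :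
    (pt F)^[n] (fun i => c * x i) = fun i => c ^ d ^ n * (pt F)^[n] x i := by
  induction n with
  | zero => simp
  | succ n ih =>
    rw [Function.iterate_succ_apply', ih, Function.iterate_succ_apply']
    funext i
    simp only [pt]
    have h2 := eval_scale (F i) d (hF i) (c ^ d ^ n) ((pt F)^[n] x)
    rw [h2, ← pow_mul, ← pow_succ]

end Pool.Agent.H936R2
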