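import Pool.Agent.H936R2.Crit2

set_option autoImplicit false

/-! The model map `((x₀ - a x₁)^d, …, (x₀ - a x_N)^d, x₀^d)`. -/

namespace Pool.Agent.H936R2

open MvPolynomial

/-- The forms `(X_0 - a X_1)^d, …, (X_0 - a X_N)^d, X_0^d` with integer coefficients. -/
noncomputable def modelForm (N d : ℕ) (a : ℤ) (i : Fin (N + 1)) :
    MvPolynomial (Fin (N + 1)) ℤ :=
  if h : (i : ℕ) < N then (X 0 - C a * X ⟨(i : ℕ) + 1, Nat.succ_lt_succ h⟩) ^ d else X 0 ^ d

section

variable {k : Type} [Field k] (N d : ℕ) (a : ℤ)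

/-- The reduction of the model map over a field. -/
noncomputable def modelK (k : Type) [Field k] (N d : ℕ) (a : ℤ) (i : Fin (N + 1)) :
    MvPolynomial (Fin (N + 1)) k := map (Int.castRingHom k) (modelForm N d a i)

lemma modelK_lt (i : Fin (N + 1)) (h : (i : ℕ) < N) :
    modelK k N d a i = (X 0 - C (a : k) * X ⟨(i : ℕ) + 1, Nat.succ_lt_succ h⟩) ^ d := by
  simp [modelK, modelForm, h]

lemma modelK_last (i : Fin (N + 1)) (h : ¬ (i : ℕ) < N) :
    modelK k N d a i = X 0 ^ d := by
  simp [modelK, modelForm, h]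

lemma modelK_eval_lt (x : Fin (N + 1) → k) (j : ℕ) (hj : j < N) :
    pt (modelK k N d a) x ⟨j, by omega⟩ = (x 0 - a * x ⟨j + 1, by omega⟩) ^ d := by
  simp only [pt]
  rw [modelK_lt N d a ⟨j, by omega⟩ hj]
  simp

lemma modelK_eval_last (x : Fin (N + 1) → k) :
    pt (modelK k N d a) x ⟨N, by omega⟩ = (x 0) ^ d := by
  simp only [pt]
  rw [modelK_last N d a ⟨N, by omega⟩ (lt_irrefl N)]
  simp

variable {N d a}

lemma model_nonzero (ha : (a : k) ≠ 0) (hd : d ≠ 0) (x : Fin (N + 1) → k)
    (hx : ∀ i, eval x (modelK k N d a i) = 0) : x = 0 := by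
  have h0 : x 0 = 0 := by
    have h := hx ⟨N, by omega⟩
    have h2 := modelK_eval_last (k := k) N d a x
    simp only [pt] at h2
    rw [h2] at h
    exact pow_eq_zero_iff hd |>.1 h
  funext i
  rcases Nat.eq_zero_or_pos (i : ℕ) with hi | hi
  · have : i = 0 := Fin.ext hi
    rw [this, h0]; rfl
  · obtain ⟨j, hj⟩ : ∃ j, (i : ℕ) = j + 1 := ⟨(i : ℕ) - 1, by omega⟩
    have hjN : j < N := by have := i.2; omega
    have h := hx ⟨j, by omega⟩
    have h2 := modelK_eval_lt (k := k) N d a x j hjN
    simp only [pt] at h2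
    rw [h2, h0] at h
    have h3 := (pow_eq_zero_iff hd).1 h
    have h4 : (a : k) * x ⟨j + 1, by omega⟩ = 0 := by linear_combination -h3
    have h5 := (mul_eq_zero.1 h4).resolve_left ha
    have : i = ⟨j + 1, by omega⟩ := Fin.ext hj
    rw [this, h5]; rfl

/-- The index shift `0 ↦ N`, `j + 1 ↦ j`. -/
def shiftIdx (N : ℕ) (i : Fin (N + 1)) : Fin (N + 1) :=
  if h : (i : ℕ) = 0 then ⟨N, by omega⟩ else ⟨(i : ℕ) - 1, by omega⟩

lemma shiftIdx_injective (N : ℕ) : Function.Injective (shiftIdx N) := by
  intro i j h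
  unfold shiftIdx at h
  apply Fin.ext
  have hi := i.2
  have hj := j.2
  split_ifs at h with h1 h2 h2
  · omega
  · have := congrArg Fin.val h
    simp only at this
    omega
  · have := congrArg Fin.val h
    simp only at this
    omega
  · have := congrArg Fin.val h
    simp only at this
    omega

/-- Equalities between coordinates are preserved by the model map. -/
lemma model_equalities (h1a : (1 - (a : k)) ^ d = 1) (x : Fin (N + 1) → k) (i j : Fin (N + 1))
    (h : x i = x j) : pt (modelK k N d a) x (shiftIdx N i) = pt (modelK k N d a) x (shiftIdx N j) := by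
  have key : ∀ i j : Fin (N + 1), (i : ℕ) = 0 → (j : ℕ) ≠ 0 → x i = x j →
      pt (modelK k N d a) x (shiftIdx N i) = pt (modelK k N d a) x (shiftIdx N j) := by
    intro i j hi hj h
    obtain ⟨l, hl⟩ : ∃ l, (j : ℕ) = l + 1 := ⟨(j : ℕ) - 1, by omega⟩
    have hlN : l < N := by have := j.2; omega
    have hi' : i = 0 := Fin.ext hi
    have hj' : j = ⟨l + 1, by omega⟩ := Fin.ext hl
    have e1 : shiftIdx N i = ⟨N, by omega⟩ := by simp [shiftIdx, hi]
    have e2 : shiftIdx N j = ⟨l, by omega⟩ := by
      apply Fin.ext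
      simp [shiftIdx, hl]
    rw [e1, e2, modelK_eval_last, modelK_eval_lt N d a x l hlN, ← hj', ← h, hi']
    have : x 0 - (a : k) * x 0 = (1 - (a : k)) * x 0 := by ring
    rw [this, mul_pow, h1a, one_mul]
  by_cases hi : (i : ℕ) = 0
  · by_cases hj : (j : ℕ) = 0
    · have : i = j := Fin.ext (hi.trans hj.symm)
      rw [this]
    · exact key i j hi hj h
  · by_cases hj : (j : ℕ) = 0
    · exact (key j i hj hi h.symm).symm
    · obtain ⟨l, hl⟩ : ∃ l, (j : ℕ) = l + 1 := ⟨(j : ℕ) - 1, by omega⟩
      obtain ⟨m, hm⟩ : ∃ m, (i : ℕ) = m + 1 := ⟨(i : ℕ) - 1, by omega⟩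
      have hlN : l < N := by have := j.2; omega
      have hmN : m < N := by have := i.2; omega
      have hi' : i = ⟨m + 1, by omega⟩ := Fin.ext hm
      have hj' : j = ⟨l + 1, by omega⟩ := Fin.ext hl
      have e1 : shiftIdx N i = ⟨m, by omega⟩ := by
        apply Fin.ext
        simp [shiftIdx, hm]
      have e2 : shiftIdx N j = ⟨l, by omega⟩ := by
        apply Fin.ext
        simp [shiftIdx, hl]
      rw [e1, e2, modelK_eval_lt N d a x l hlN, modelK_eval_lt N d a x m hmN, ← hi', ← hj', h]

/-- The set of pairs of equal coordinates. -/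
noncomputable def eqSet (x : Fin (N + 1) → k) : Finset (Fin (N + 1) × Fin (N + 1)) := by
  classical
  exact Finset.univ.filter fun q => x q.1 = x q.2

lemma mem_eqSet (x : Fin (N + 1) → k) (q : Fin (N + 1) × Fin (N + 1)) :
    q ∈ eqSet x ↔ x q.1 = x q.2 := by
  classical
  simp [eqSet]

lemma eqSet_card_le (h1a : (1 - (a : k)) ^ d = 1) (x : Fin (N + 1) → k) :
    (eqSet x).card ≤ (eqSet (pt (modelK k N d a) x)).card := by
  classical
  have hinj : Function.Injective (fun q : Fin (N + 1) × Fin (N + 1) =>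
      (shiftIdx N q.1, shiftIdx N q.2)) := by
    intro q q' h
    have h1 := congrArg Prod.fst h
    have h2 := congrArg Prod.snd h
    exact Prod.ext (shiftIdx_injective N h1) (shiftIdx_injective N h2)
  rw [← Finset.card_image_of_injective (eqSet x) hinj]
  apply Finset.card_le_card
  intro q hq
  rw [Finset.mem_image] at hq
  obtain ⟨q', hq', rfl⟩ := hq
  rw [mem_eqSet] at *
  exact model_equalities h1a x _ _ hq'

/-- Along a periodic orbit no new equalities appear. -/
lemma model_reflect (h1a : (1 - (a : k)) ^ d = 1) (x : Fin (N + 1) → k) (m : ℕ) (hm : 0 < m)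
    (hper : (pt (modelK k N d a))^[m] x = x) (i j : Fin (N + 1))
    (h : pt (modelK k N d a) x (shiftIdx N i) = pt (modelK k N d a) x (shiftIdx N j)) :
    x i = x j := by
  classical
  have hmono : ∀ n, (eqSet (pt (modelK k N d a) x)).card ≤
      (eqSet ((pt (modelK k N d a))^[n + 1] x)).card := by
    intro n
    induction n with
    | zero => exact le_rfl
    | succ n ih =>
      rw [Function.iterate_succ_apply']
      exact ih.trans (eqSet_card_le h1a _)
  have h1 := hmono (m - 1)
  have h2 : m - 1 + 1 = m := by omega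
  rw [h2, hper] at h1
  have hinj : Function.Injective (fun q : Fin (N + 1) × Fin (N + 1) =>
      (shiftIdx N q.1, shiftIdx N q.2)) := by
    intro q q' h
    have h1 := congrArg Prod.fst h
    have h2 := congrArg Prod.snd h
    exact Prod.ext (shiftIdx_injective N h1) (shiftIdx_injective N h2)
  have hsub : (eqSet x).image (fun q => (shiftIdx N q.1, shiftIdx N q.2)) ⊆
      eqSet (pt (modelK k N d a) x) := by
    intro q hq
    rw [Finset.mem_image] at hq
    obtain ⟨q', hq', rfl⟩ := hq
    rw [mem_eqSet] at *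
    exact model_equalities h1a x _ _ hq'
  have heq := Finset.eq_of_subset_of_card_le hsub (by
    rw [Finset.card_image_of_injective _ hinj]; exact h1)
  have hmem : (shiftIdx N i, shiftIdx N j) ∈ eqSet (pt (modelK k N d a) x) := by
    rw [mem_eqSet]; exact h
  rw [← heq, Finset.mem_image] at hmem
  obtain ⟨q, hq, hqe⟩ := hmem
  have e1 := shiftIdx_injective N (congrArg Prod.fst hqe)
  have e2 := shiftIdx_injective N (congrArg Prod.snd hqe)
  rw [mem_eqSet] at hq
  rwa [e1, e2] at hq

lemma periodic_iterate {X : Type} (f : X → X) (x : X) (m : ℕ) (hper : f^[m] x = x) (n : ℕ) :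
    f^[m] (f^[n] x) = f^[n] x := by
  rw [← Function.iterate_add_apply, Nat.add_comm, Function.iterate_add_apply, hper]

/-- Along a nonzero periodic orbit of the model map the coordinate `x₀` never vanishes. -/
lemma model_x0_ne (hd : d ≠ 0) (ha : (a : k) ≠ 0) (h1a : (1 - (a : k)) ^ d = 1)
    (x : Fin (N + 1) → k) (hx : x ≠ 0) (m : ℕ) (hm : 0 < m)
    (hper : (pt (modelK k N d a))^[m] x = x) : x 0 ≠ 0 := by
  -- a vanishing coordinate forces `x 0 = 0`
  have hA : ∀ y : Fin (N + 1) → k, (pt (modelK k N d a))^[m] y = y → ∀ i, y i = 0 → y 0 = 0 := by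
    intro y hy i hi
    rcases Nat.eq_zero_or_pos (i : ℕ) with h0 | h0
    · have : i = 0 := Fin.ext h0
      rwa [this] at hi
    · have hne : (i : ℕ) ≠ 0 := by omega
      obtain ⟨l, hl⟩ : ∃ l, (i : ℕ) = l + 1 := ⟨(i : ℕ) - 1, by omega⟩
      have hlN : l < N := by have := i.2; omega
      have hi' : i = ⟨l + 1, by omega⟩ := Fin.ext hl
      have e1 : shiftIdx N 0 = ⟨N, by omega⟩ := by simp [shiftIdx]
      have e2 : shiftIdx N i = ⟨l, by omega⟩ := by
        apply Fin.ext
        simp [shiftIdx, hl]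
      have h3 := model_reflect h1a y m hm hy i 0 (by
        rw [e1, e2, modelK_eval_last, modelK_eval_lt N d a y l hlN, ← hi', hi]
        simp)
      rw [← h3, hi]
  -- `y 0 = 0` propagates
  have hB : ∀ y : Fin (N + 1) → k, (pt (modelK k N d a))^[m] y = y → y 0 = 0 →
      pt (modelK k N d a) y 0 = 0 := by
    intro y hy h0
    apply hA _ _ ⟨N, by omega⟩
    · rw [modelK_eval_last, h0, zero_pow hd]
    · have := periodic_iterate (pt (modelK k N d a)) y m hy 1
      simpa using this
  have hC : ∀ j : ℕ, ∀ hj : j ≤ N, ∀ y : Fin (N + 1) → k, (pt (modelK k N d a))^[m] y = y →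
      y 0 = 0 → y ⟨j, by omega⟩ = 0 := by
    intro j
    induction j with
    | zero => intro _ y _ h0; exact h0
    | succ j ih =>
      intro hj y hy h0
      have h1 := hB y hy h0
      have hy' : (pt (modelK k N d a))^[m] (pt (modelK k N d a) y) = pt (modelK k N d a) y := by
        have := periodic_iterate (pt (modelK k N d a)) y m hy 1
        simpa using this
      have h2 := ih (by omega) _ hy' h1
      rw [modelK_eval_lt N d a y j (by omega), h0] at h2
      have h3 := (pow_eq_zero_iff hd).1 h2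
      have h4 : (a : k) * y ⟨j + 1, by omega⟩ = 0 := by linear_combination -h3
      exact (mul_eq_zero.1 h4).resolve_left ha
  intro h0
  apply hx
  funext i
  exact hC i (by have := i.2; omega) x hper h0

/-- The model map is unramified along its nonzero periodic orbits. -/
lemma model_unramified (hd : 2 ≤ d) (hdk : (d : k) ≠ 0) (ha : (a : k) ≠ 0)
    (h1a : (1 - (a : k)) ^ d = 1) (x : Fin (N + 1) → k) (hx : x ≠ 0) (m : ℕ) (hm : 0 < m)
    (hper : (pt (modelK k N d a))^[m] x = x) : (jac (modelK k N d a) x).det ≠ 0 := by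
  have hd0 : d ≠ 0 := by omega
  have hper1 : (pt (modelK k N d a))^[m] (pt (modelK k N d a) x) = pt (modelK k N d a) x := by
    have := periodic_iterate (pt (modelK k N d a)) x m hper 1
    simpa using this
  have hx1 : pt (modelK k N d a) x ≠ 0 := by
    intro h
    exact hx (model_nonzero ha hd0 x fun i => congrFun h i)
  have h0 := model_x0_ne hd0 ha h1a x hx m hm hper
  -- all coordinates of the image are nonzero
  have hall : ∀ i, pt (modelK k N d a) x i ≠ 0 := by
    intro i hi
    have hA := model_x0_ne hd0 ha h1a _ hx1 m hm hper1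
    rcases Nat.eq_zero_or_pos (i : ℕ) with h0' | h0'
    · have : i = 0 := Fin.ext h0'
      rw [this] at hi
      exact hA hi
    · obtain ⟨l, hl⟩ : ∃ l, (i : ℕ) = l + 1 := ⟨(i : ℕ) - 1, by omega⟩
      have hlN : l < N := by have := i.2; omega
      have hi' : i = ⟨l + 1, by omega⟩ := Fin.ext hl
      have e1 : shiftIdx N 0 = ⟨N, by omega⟩ := by simp [shiftIdx]
      have e2 : shiftIdx N i = ⟨l, by omega⟩ := by
        apply Fin.ext
        simp [shiftIdx, hl]
      have h3 := model_reflect h1a (pt (modelK k N d a) x) m hm hper1 i 0 (by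
        rw [e1, e2, modelK_eval_last, modelK_eval_lt N d a _ l hlN, ← hi', hi]
        simp)
      apply hA
      rw [← h3, hi]
  intro hdet
  obtain ⟨v, hv, hv0⟩ := (Matrix.exists_mulVec_eq_zero_iff).2 hdet
  apply hv
  have hrow : ∀ i, ∑ j, jac (modelK k N d a) x i j * v j = 0 := by
    intro i
    have := congrFun hv0 i
    simpa [Matrix.mulVec, dotProduct] using this
  have hv00 : v 0 = 0 := by
    have h1 := hrow ⟨N, by omega⟩
    have h2 : ∀ j, jac (modelK k N d a) x ⟨N, by omega⟩ j =
        if j = 0 then (d : k) * x 0 ^ (d - 1) else 0 := by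
      intro j
      simp only [jac]
      rw [modelK_last N d a ⟨N, by omega⟩ (lt_irrefl N), Derivation.leibniz_pow]
      by_cases hj : j = 0
      · subst hj
        rw [if_pos rfl, pderiv_X_self]
        simp
      · rw [if_neg hj, pderiv_X_of_ne (Ne.symm hj)]
        simp
    simp only [h2, ite_mul, zero_mul, Finset.sum_ite_eq', Finset.mem_univ, if_true] at h1
    have h3 : (d : k) * x 0 ^ (d - 1) ≠ 0 := mul_ne_zero hdk (pow_ne_zero _ h0)
    exact (mul_eq_zero.1 h1).resolve_left h3
  funext i
  rcases Nat.eq_zero_or_pos (i : ℕ) with h0' | h0'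
  · have : i = 0 := Fin.ext h0'
    rw [this, hv00]; rfl
  · obtain ⟨l, hl⟩ : ∃ l, (i : ℕ) = l + 1 := ⟨(i : ℕ) - 1, by omega⟩
    have hlN : l < N := by have := i.2; omega
    have hi' : i = ⟨l + 1, by omega⟩ := Fin.ext hl
    have h1 := hrow ⟨l, by omega⟩
    set y := x 0 - (a : k) * x ⟨l + 1, by omega⟩ with hy
    have hy0 : y ≠ 0 := by
      intro h
      apply hall ⟨l, by omega⟩
      rw [modelK_eval_lt N d a x l hlN, ← hy, h, zero_pow hd0]
    have hne : (⟨l + 1, by omega⟩ : Fin (N + 1)) ≠ 0 := by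
      intro h
      have := congrArg Fin.val h
      simp at this
    have h2 : ∀ j, jac (modelK k N d a) x ⟨l, by omega⟩ j =
        (d : k) * y ^ (d - 1) * ((if j = 0 then 1 else 0) -
          (if j = (⟨l + 1, by omega⟩ : Fin (N + 1)) then (a : k) else 0)) := by
      intro j
      simp only [jac]
      rw [modelK_lt N d a ⟨l, by omega⟩ hlN, Derivation.leibniz_pow]
      simp only [map_sub, Derivation.leibniz, pderiv_C, smul_eq_mul, mul_zero, add_zero]
      by_cases hj : j = 0
      · subst hj
        rw [pderiv_X_self, pderiv_X_of_ne hne, if_pos rfl, if_neg (Ne.symm hne)]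
        simp [hy]
      · rw [pderiv_X_of_ne (Ne.symm hj), if_neg hj]
        by_cases hj2 : j = (⟨l + 1, by omega⟩ : Fin (N + 1))
        · subst hj2
          rw [pderiv_X_self, if_pos rfl]
          simp [hy]
          ring
        · rw [pderiv_X_of_ne (Ne.symm hj2), if_neg hj2]
          simp
    simp only [h2] at h1
    have h3 : ∑ j, (d : k) * y ^ (d - 1) * ((if j = 0 then 1 else 0) -
          (if j = (⟨l + 1, by omega⟩ : Fin (N + 1)) then (a : k) else 0)) * v j =
        (d : k) * y ^ (d - 1) * (v 0 - a * v ⟨l + 1, by omega⟩) := by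
      simp only [mul_assoc, ← Finset.mul_sum, sub_mul, Finset.sum_sub_distrib, ite_mul, one_mul,
        zero_mul, Finset.sum_ite_eq', Finset.mem_univ, if_true]
    rw [h3, hv00] at h1
    have h4 : (d : k) * y ^ (d - 1) ≠ 0 := mul_ne_zero hdk (pow_ne_zero _ hy0)
    have h5 := (mul_eq_zero.1 h1).resolve_left h4
    have h6 : (a : k) * v ⟨l + 1, by omega⟩ = 0 := by linear_combination -h5
    rw [hi']
    exact (mul_eq_zero.1 h6).resolve_left ha

end

end Pool.Agent.H936R2
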