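import Pool.Agent.H936R2.Arc

set_option autoImplicit false

/-! Periodicity modulo powers of `p` of orbits over the algebraic closure of `ℚ_p`, and the
resulting return set theorem. -/

namespace Pool.Agent.H936R2

open MvPolynomial

variable {ι : Type} [Fintype ι] [DecidableEq ι]

lemma compact_pair (p : ℕ) [Fact p.Prime] (L : Submodule ℚ_[p] (PadicAlgCl p))
    [FiniteDimensional ℚ_[p] L] {κ : Type} [Fintype κ] (y : ℕ → κ → PadicAlgCl p)
    (hL : ∀ n j, y n j ∈ L) (h1 : ∀ n j, ‖y n j‖ ≤ 1) (ε : ℝ) (hε : 0 < ε) :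
    ∃ n m, n < m ∧ ∀ j, ‖y m j - y n j‖ < ε := by
  have : ProperSpace L := FiniteDimensional.proper ℚ_[p] L
  let x : ℕ → κ → L := fun n j => ⟨y n j, hL n j⟩
  have hx : ∀ n, x n ∈ Metric.closedBall (0 : κ → L) 1 := by
    intro n
    rw [mem_closedBall_zero_iff, pi_norm_le_iff_of_nonneg zero_le_one]
    intro j
    exact h1 n j
  obtain ⟨a, -, φ, hφ, hlim⟩ := (isCompact_closedBall (0 : κ → L) 1).tendsto_subseq hx
  have hc := hlim.cauchySeq
  rw [Metric.cauchySeq_iff] at hc
  obtain ⟨N, hN⟩ := hc ε hε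
  refine ⟨φ N, φ (N + 1), hφ (Nat.lt_succ_self N), fun j => ?_⟩
  have h2 := hN (N + 1) (Nat.le_succ N) N le_rfl
  rw [dist_eq_norm] at h2
  have h3 := norm_le_pi_norm (x (φ (N + 1)) - x (φ N)) j
  exact lt_of_le_of_lt h3 h2

lemma norm_p_lt_one (p : ℕ) [Fact p.Prime] : ‖(p : PadicAlgCl p)‖ < 1 := by
  have h := PadicAlgCl.norm_extends p (p : ℚ_[p])
  change ‖algebraMap ℚ_[p] (PadicAlgCl p) (p : ℚ_[p])‖ = _ at h
  rw [map_natCast] at h
  rw [h]
  exact Padic.norm_p_lt_one

/-- Semigroup property of the Jacobian cocycle. -/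
lemma itA_add {O : Type} [CommRing O] (F : ι → MvPolynomial ι O) (a : ι → O) (n k : ℕ) :
    itA F a (n + k) = itA F ((pt F)^[n] a) k * itA F a n := by
  induction k with
  | zero => simp [itA]
  | succ k ih =>
    rw [← Nat.add_assoc]
    simp only [itA]
    rw [ih, Matrix.mul_assoc, ← Function.iterate_add_apply, Nat.add_comm k n]

lemma isUnit_det_itA {O : Type} [CommRing O] (F : ι → MvPolynomial ι O) (a : ι → O)
    (hdet : ∀ n, IsUnit (jac F ((pt F)^[n] a)).det) (n : ℕ) : IsUnit (itA F a n).det := by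
  induction n with
  | zero => simp [itA]
  | succ n ih =>
    simp only [itA]
    rw [Matrix.det_mul]
    exact (hdet n).mul ih

/-- All values of polynomials with coefficients in a subring at points of the subring lie in it. -/
lemma eval_mem_subring {O : Type} [CommRing O] (R : Subring O) (x : ι → O) (hx : ∀ i, x i ∈ R)
    (P : MvPolynomial ι O) (hP : ∀ κ, P.coeff κ ∈ R) : eval x P ∈ R := by
  rw [eval_eq]
  apply R.sum_mem
  intro κ _
  apply R.mul_mem (hP κ)
  apply R.prod_mem
  intro i _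
  exact R.pow_mem (hx i) _

lemma pderiv_coeff_mem {O : Type} [CommRing O] (R : Subring O) (P : MvPolynomial ι O)
    (hP : ∀ κ, P.coeff κ ∈ R) (j : ι) : ∀ κ, (pderiv j P).coeff κ ∈ R := by
  classical
  intro κ
  rw [P.as_sum, map_sum, coeff_sum]
  apply R.sum_mem
  intro μ _
  rw [pderiv_monomial, coeff_monomial]
  split_ifs
  · apply R.mul_mem (hP μ)
    exact natCast_mem R _
  · exact R.zero_mem

theorem exists_periodic (p : ℕ) [hp : Fact p.Prime]
    (F : ι → MvPolynomial ι (unitBall (PadicAlgCl p))) (a : ι → unitBall (PadicAlgCl p))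
    (hdet : ∀ n, IsUnit (jac F ((pt F)^[n] a)).det) :
    ∃ (n k : ℕ) (v : ι → unitBall (PadicAlgCl p)) (B : Matrix ι ι (unitBall (PadicAlgCl p))),
      0 < k ∧ (∀ i, (pt F)^[k] ((pt F)^[n] a) i = (pt F)^[n] a i + ((p : unitBall (PadicAlgCl p)) ^ 2) ^ 2 * v i) ∧
      (∀ i j, itA F ((pt F)^[n] a) k i j = (1 : Matrix ι ι (unitBall (PadicAlgCl p))) i j +
        (p : unitBall (PadicAlgCl p)) ^ 2 * B i j) := by
  classical
  -- a finite dimensional subfield containing everything
  let s : Set (PadicAlgCl p) := (Set.range fun i => (a i : PadicAlgCl p)) ∪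
    ⋃ i, ⋃ κ ∈ (F i).support, {(((F i).coeff κ : unitBall (PadicAlgCl p)) : PadicAlgCl p)}
  have hs : s.Finite := by
    apply (Set.finite_range _).union
    apply Set.finite_iUnion
    intro i
    exact Set.Finite.biUnion (Finset.finite_toSet _) fun κ _ => Set.finite_singleton _
  have : Finite s := hs
  let L0 := IntermediateField.adjoin ℚ_[p] s
  have hfd : FiniteDimensional ℚ_[p] L0 := IntermediateField.finiteDimensional_adjoin
    fun x _ => (Algebra.IsAlgebraic.isAlgebraic x).isIntegral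
  let L : Submodule ℚ_[p] (PadicAlgCl p) := Subalgebra.toSubmodule L0.toSubalgebra
  have hfd' : FiniteDimensional ℚ_[p] L := hfd
  -- the subring of the unit ball
  let R : Subring (unitBall (PadicAlgCl p)) :=
    (L0.toSubring).comap (unitBall (PadicAlgCl p)).subtype
  have hR : ∀ x : unitBall (PadicAlgCl p), x ∈ R ↔ (x : PadicAlgCl p) ∈ L0 := fun x => Iff.rfl
  have haR : ∀ i, a i ∈ R := by
    intro i
    rw [hR]
    apply IntermediateField.subset_adjoin
    left
    exact ⟨i, rfl⟩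
  have hFR : ∀ i κ, (F i).coeff κ ∈ R := by
    intro i κ
    by_cases h : κ ∈ (F i).support
    · rw [hR]
      apply IntermediateField.subset_adjoin
      right
      rw [Set.mem_iUnion]
      refine ⟨i, ?_⟩
      rw [Set.mem_iUnion₂]
      exact ⟨κ, h, rfl⟩
    · rw [notMem_support_iff] at h
      rw [h]
      exact R.zero_mem
  have horb : ∀ n i, (pt F)^[n] a i ∈ R := by
    intro n
    induction n with
    | zero => exact haR
    | succ n ih =>
      intro i
      rw [Function.iterate_succ_apply']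
      exact eval_mem_subring R _ ih _ (hFR i)
  have hjac : ∀ n i j, jac F ((pt F)^[n] a) i j ∈ R := fun n i j =>
    eval_mem_subring R _ (horb n) _ (pderiv_coeff_mem R _ (hFR i) j)
  have hitA : ∀ n i j, itA F a n i j ∈ R := by
    intro n
    induction n with
    | zero =>
      intro i j
      simp only [itA, Matrix.one_apply]
      split_ifs
      · exact R.one_mem
      · exact R.zero_mem
    | succ n ih =>
      intro i j
      simp only [itA, Matrix.mul_apply]
      exact R.sum_mem fun l _ => R.mul_mem (hjac n i l) (ih l j)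
  let y : ℕ → (ι ⊕ (ι × ι)) → PadicAlgCl p := fun n => Sum.elim
    (fun i => (((pt F)^[n] a i : unitBall (PadicAlgCl p)) : PadicAlgCl p))
      (fun q => ((itA F a n q.1 q.2 : unitBall (PadicAlgCl p)) : PadicAlgCl p))
  have hpK : ‖(p : PadicAlgCl p)‖ < 1 := norm_p_lt_one p
  have hp0 : (0 : ℝ) < ‖(p : PadicAlgCl p)‖ :=
    norm_pos_iff.2 (Nat.cast_ne_zero.2 hp.out.ne_zero)
  obtain ⟨n, m, hnm, hclose⟩ := compact_pair p L y
    (by
      intro n j
      rcases j with i | q
      · exact horb n i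
      · exact hitA n q.1 q.2)
    (by
      intro n j
      rcases j with i | q
      · exact unitBall_norm_le _
      · exact unitBall_norm_le _) (‖(p : PadicAlgCl p)‖ ^ 4) (by positivity)
  have hpne : (p : PadicAlgCl p) ≠ 0 := Nat.cast_ne_zero.2 hp.out.ne_zero
  -- divide
  have hdiv : ∀ (x : unitBall (PadicAlgCl p)) (e : ℕ), ‖(x : PadicAlgCl p)‖ ≤ ‖(p : PadicAlgCl p)‖ ^ e →
      ∃ z : unitBall (PadicAlgCl p), x = (p : unitBall (PadicAlgCl p)) ^ e * z := by
    intro x e hx
    refine ⟨⟨(x : PadicAlgCl p) / (p : PadicAlgCl p) ^ e, ?_⟩, ?_⟩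
    · rw [mem_unitBall, norm_div, norm_pow, div_le_one (by positivity)]
      exact hx
    · apply Subtype.ext
      push_cast
      rw [mul_div_cancel₀]
      exact pow_ne_zero _ hpne
  have h1 : ∀ i, ∃ z : unitBall (PadicAlgCl p), (pt F)^[m] a i - (pt F)^[n] a i =
      (p : unitBall (PadicAlgCl p)) ^ 4 * z := fun i => hdiv _ 4 (hclose (Sum.inl i)).le
  have h2 : ∀ i j, ∃ z : unitBall (PadicAlgCl p), itA F a m i j - itA F a n i j =
      (p : unitBall (PadicAlgCl p)) ^ 2 * z := by
    intro i j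
    apply hdiv _ 2
    have := (hclose (Sum.inr (i, j))).le
    refine this.trans ?_
    exact pow_le_pow_of_le_one hp0.le hpK.le (by norm_num)
  choose v hv using h1
  choose B0 hB0 using h2
  obtain ⟨k, rfl⟩ : ∃ k, m = n + k := ⟨m - n, by omega⟩
  have hdetn := isUnit_det_itA F a hdet n
  have hmat : itA F a (n + k) - itA F a n = ((p : unitBall (PadicAlgCl p)) ^ 2) • (Matrix.of B0) := by
    ext i j
    simp only [Matrix.sub_apply, Matrix.smul_apply, smul_eq_mul, Matrix.of_apply]
    rw [hB0]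
  have hk : itA F ((pt F)^[n] a) k = 1 +
      ((p : unitBall (PadicAlgCl p)) ^ 2) • ((Matrix.of B0) * (itA F a n)⁻¹) := by
    have h3 : (itA F ((pt F)^[n] a) k - 1) * itA F a n =
        ((p : unitBall (PadicAlgCl p)) ^ 2) • (Matrix.of B0) := by
      rw [Matrix.sub_mul, Matrix.one_mul, ← itA_add, hmat]
    have h4 : (itA F ((pt F)^[n] a) k - 1) =
        ((p : unitBall (PadicAlgCl p)) ^ 2) • ((Matrix.of B0) * (itA F a n)⁻¹) := by
      rw [← Matrix.smul_mul, ← h3, Matrix.mul_assoc, Matrix.mul_nonsing_inv _ hdetn, Matrix.mul_one]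
    rw [← h4]
    abel
  refine ⟨n, k, v, (Matrix.of B0) * (itA F a n)⁻¹, by omega, fun i => ?_, fun i j => ?_⟩
  · rw [← Function.iterate_add_apply, Nat.add_comm k n]
    have := hv i
    rw [sub_eq_iff_eq_add] at this
    rw [this]
    ring
  · rw [hk]
    rfl

/-- Combinatorial packaging. -/
lemma exists_progressions (Z : Set ℕ) (n0 k : ℕ) (hk : 0 < k)
    (h : ∀ r, {t : ℕ | n0 + r + k * t ∈ Z}.Infinite → ∀ t, n0 + r + k * t ∈ Z) :
    ∃ T : Finset (ℕ × ℕ), Z = {n : ℕ | ∃ q ∈ T, ∃ m : ℕ, n = q.1 * m + q.2} := by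
  classical
  -- the good residues
  let G : Finset ℕ := (Finset.range k).filter fun r => {t : ℕ | n0 + r + k * t ∈ Z}.Infinite
  have hfin : {n ∈ Z | n < n0 ∨ ∃ r < k, r ∉ G ∧ ∃ t, n = n0 + r + k * t}.Finite := by
    have h1 : {n ∈ Z | n < n0 ∨ ∃ r < k, r ∉ G ∧ ∃ t, n = n0 + r + k * t} ⊆
        {n | n < n0} ∪ ⋃ r ∈ (Finset.range k).filter (fun r => r ∉ G),
          (fun t => n0 + r + k * t) '' {t : ℕ | n0 + r + k * t ∈ Z} := by
      rintro n ⟨hn, hlt | ⟨r, hr, hrG, t, rfl⟩⟩
      · left; exact hlt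
      · right
        rw [Set.mem_iUnion₂]
        refine ⟨r, ?_, t, hn, rfl⟩
        simp [hr, hrG]
    refine Set.Finite.subset ((Set.finite_lt_nat n0).union ?_) h1
    apply Set.Finite.biUnion (Finset.finite_toSet _)
    intro r hr
    have hr' : r < k ∧ r ∉ G := by simpa using hr
    have : ¬ {t : ℕ | n0 + r + k * t ∈ Z}.Infinite := by
      intro hinf
      apply hr'.2
      simp only [G, Finset.mem_filter, Finset.mem_range]
      exact ⟨hr'.1, hinf⟩
    rw [Set.not_infinite] at this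
    exact this.image _
  refine ⟨hfin.toFinset.image (fun n => (0, n)) ∪ G.image (fun r => (k, n0 + r)), ?_⟩
  ext n
  simp only [Set.mem_ofPred_eq, Finset.mem_union, Finset.mem_image, Set.Finite.mem_toFinset]
  constructor
  · intro hn
    by_cases hc : n < n0 ∨ ∃ r < k, r ∉ G ∧ ∃ t, n = n0 + r + k * t
    · exact ⟨(0, n), Or.inl ⟨n, ⟨hn, hc⟩, rfl⟩, 0, by simp⟩
    · push Not at hc
      obtain ⟨h0, h1⟩ := hc
      have hr : (n - n0) % k < k := Nat.mod_lt _ hk
      have hn' : n = n0 + (n - n0) % k + k * ((n - n0) / k) := by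
        have := Nat.mod_add_div (n - n0) k
        omega
      have hG : (n - n0) % k ∈ G := by
        by_contra hG
        exact h1 _ hr hG _ hn'
      refine ⟨(k, n0 + (n - n0) % k), Or.inr ⟨_, hG, rfl⟩, (n - n0) / k, ?_⟩
      simp only
      omega
  · rintro ⟨q, (⟨m, ⟨hm, -⟩, rfl⟩ | ⟨r, hr, rfl⟩), t, rfl⟩
    · simpa using hm
    · simp only
      have hr' : {t : ℕ | n0 + r + k * t ∈ Z}.Infinite := by
        simp only [G, Finset.mem_filter] at hr
        exact hr.2
      have := h r hr' t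
      rwa [Nat.add_comm]

/-- **Return sets along `p`-adically étale orbits.** -/
theorem return_set (p : ℕ) [hp : Fact p.Prime]
    (F : ι → MvPolynomial ι (unitBall (PadicAlgCl p))) (a : ι → unitBall (PadicAlgCl p)) (N : ℕ)
    (hdet : ∀ n, N ≤ n → IsUnit (jac F ((pt F)^[n] a)).det) :
    ∃ n0 k : ℕ, 0 < k ∧ ∀ S : Set (MvPolynomial ι (PadicAlgCl p)), ∀ r,
      {t : ℕ | ∀ P ∈ S, eval (fun i => ((pt F)^[n0 + r + k * t] a i : PadicAlgCl p)) P = 0}.Infinite →
      ∀ t : ℕ, ∀ P ∈ S, eval (fun i => ((pt F)^[n0 + r + k * t] a i : PadicAlgCl p)) P = 0 := by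
  have hpK : ‖(p : PadicAlgCl p)‖ < 1 := norm_p_lt_one p
  obtain ⟨n, k, v, B, hk, hb, hA⟩ := exists_periodic p F ((pt F)^[N] a) (by
    intro n
    rw [← Function.iterate_add_apply]
    exact hdet _ (Nat.le_add_left _ _))
  refine ⟨n + N, k, hk, fun S r hinf t P hP => ?_⟩
  have hc := arc_core p hpK F ((pt F)^[n] ((pt F)^[N] a)) k v B hb hA r P
  have he : ∀ t, (pt F)^[k * t + r] ((pt F)^[n] ((pt F)^[N] a)) = (pt F)^[n + N + r + k * t] a := by
    intro t
    rw [← Function.iterate_add_apply, ← Function.iterate_add_apply]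
    congr 1
    omega
  simp only [he] at hc
  exact hc (hinf.mono fun t ht => (Set.mem_ofPred_eq ▸ ht) P hP) t

end Pool.Agent.H936R2
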