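import Mathlib

/-!
Sum-free sets `S` of reals and sets `A` such that neither `A` nor `A + A` meets `S`:
such an `A` of cardinality `κ` exists for every regular cardinal `κ ≤ 2^ℵ₀`.
-/

set_option autoImplicit false

open Cardinal Set

namespace Pool.Agent.H936R2.SumFree

/-- The graph argument: if all degrees are less than `κ`, then there is an independent set of
cardinality at least `κ`. -/
theorem exists_indep {κ : Cardinal.{0}} (hκ : κ.IsRegular) (S Z : Set ℝ) (hZ : κ ≤ #Z)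
    (h2 : ∀ z ∈ Z, z + z ∉ S)
    (hdeg : ∀ z ∈ Z, #{z' : ℝ | z' ∈ Z ∧ z + z' ∈ S} < κ) :
    ∃ A : Set ℝ, A ⊆ Z ∧ κ ≤ #A ∧ ∀ a ∈ A, ∀ b ∈ A, a + b ∉ S := by
  classical
  obtain ⟨A, hA⟩ := zorn_subset {A : Set ℝ | A ⊆ Z ∧ ∀ a ∈ A, ∀ b ∈ A, a + b ∉ S} (by
    intro c hc hchain
    refine ⟨⋃₀ c, ⟨Set.sUnion_subset fun s hs => (hc hs).1, ?_⟩, fun s hs =>
      Set.subset_sUnion_of_mem hs⟩
    rintro a ⟨s, hs, has⟩ b ⟨t, ht, hbt⟩
    rcases hchain.total hs ht with h | h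
    · exact (hc ht).2 a (h has) b hbt
    · exact (hc hs).2 a has b (h hbt))
  have hAZ : A ⊆ Z := hA.prop.1
  have hAi := hA.prop.2
  refine ⟨A, hAZ, ?_, hAi⟩
  by_contra hlt
  push Not at hlt
  have hcov : Z ⊆ A ∪ ⋃ a ∈ A, {z' : ℝ | z' ∈ Z ∧ a + z' ∈ S} := by
    intro z hz
    by_contra hzn
    rw [Set.mem_union, not_or] at hzn
    obtain ⟨hzA, hzn⟩ := hzn
    have hzn' : ∀ a ∈ A, a + z ∉ S := by
      intro a ha h
      exact hzn (Set.mem_biUnion ha ⟨hz, h⟩)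
    have hins : insert z A ∈ {A : Set ℝ | A ⊆ Z ∧ ∀ a ∈ A, ∀ b ∈ A, a + b ∉ S} := by
      refine ⟨Set.insert_subset hz hAZ, ?_⟩
      rintro a ha b hb
      rcases ha with rfl | ha <;> rcases hb with rfl | hb
      · exact h2 _ hz
      · rw [add_comm]; exact hzn' b hb
      · exact hzn' a ha
      · exact hAi a ha b hb
    have := hA.eq_of_subset hins (Set.subset_insert z A)
    exact hzA (this ▸ Set.mem_insert z A)
  have h1 : #(⋃ a ∈ A, {z' : ℝ | z' ∈ Z ∧ a + z' ∈ S} : Set ℝ) < κ := by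
    rw [Cardinal.card_biUnion_lt_iff_forall_of_isRegular hκ hlt]
    intro a ha
    exact hdeg a (hAZ ha)
  have h3 : #Z < κ := by
    refine lt_of_le_of_lt (Cardinal.mk_le_mk_of_subset hcov) ?_
    exact lt_of_le_of_lt (Cardinal.mk_union_le _ _) (Cardinal.add_lt_of_lt hκ.aleph0_le hlt h1)
  exact absurd hZ (not_le.2 h3)

section Main

variable {κ : Cardinal.{0}} {S : Set ℝ}

/-- The set of `x ∉ S` with `x + z, x - z ∈ S`. -/
def E (S : Set ℝ) (z : ℝ) : Set ℝ := {x : ℝ | x ∉ S ∧ x + z ∈ S ∧ x - z ∈ S}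

theorem small_union (hκ : κ.IsRegular) {T U : Set ℝ} (hT : #T < κ) (hU : #U < κ) :
    #(T ∪ U : Set ℝ) < κ :=
  lt_of_le_of_lt (Cardinal.mk_union_le _ _) (Cardinal.add_lt_of_lt hκ.aleph0_le hT hU)

theorem small_subset {T U : Set ℝ} (h : T ⊆ U) (hU : #U < κ) : #T < κ :=
  lt_of_le_of_lt (Cardinal.mk_le_mk_of_subset h) hU

theorem affine_inj {k c : ℝ} (hk : k ≠ 0) : Function.Injective fun t : ℝ => k * t + c := by
  intro a b h
  simpa [hk] using h

theorem small_pre {T : Set ℝ} (hT : #T < κ) {k : ℝ} (hk : k ≠ 0) (c : ℝ) :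
    #{t : ℝ | k * t + c ∈ T} < κ :=
  lt_of_le_of_lt (Cardinal.mk_preimage_of_injective (fun t : ℝ => k * t + c) T (affine_inj hk)) hT

variable (hκ : κ.IsRegular) (hS : ∀ a ∈ S, ∀ b ∈ S, a + b ∉ S)
  (bad : ∀ A : Set ℝ, (∀ a ∈ A, a ∉ S) → (∀ a ∈ A, ∀ b ∈ A, a + b ∉ S) → #A < κ)

include bad hS in
theorem small_E (z : ℝ) : #(E S z) < κ := by
  refine bad _ (fun a ha => ha.1) ?_
  rintro a ⟨-, ha, -⟩ b ⟨-, -, hb⟩
  have := hS _ ha _ hb
  rwa [show a + z + (b - z) = a + b by ring] at this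

include hκ bad in
theorem small_of {T : Set ℝ} (k c : ℝ) (hk : k ≠ 0) (h1 : ∀ t ∈ T, k * t + c ∉ S)
    (h2 : ∀ t ∈ T, (k * t + c) + (k * t + c) ∉ S)
    (hdeg : ∀ t ∈ T, #{u : ℝ | u ∈ T ∧ (k * t + c) + (k * u + c) ∈ S} < κ) : #T < κ := by
  by_contra hlt
  push Not at hlt
  set f : ℝ → ℝ := fun t => k * t + c with hf
  have hinj : Function.Injective f := affine_inj hk
  have hZ : κ ≤ #(f '' T) := by rwa [Cardinal.mk_image_eq hinj]
  obtain ⟨A, hAZ, hA, hAi⟩ := exists_indep hκ S (f '' T) hZ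
    (by rintro _ ⟨t, ht, rfl⟩; exact h2 t ht)
    (by
      rintro _ ⟨t, ht, rfl⟩
      refine lt_of_le_of_lt ?_ (hdeg t ht)
      have : {z' : ℝ | z' ∈ f '' T ∧ f t + z' ∈ S} ⊆
          f '' {u : ℝ | u ∈ T ∧ (k * t + c) + (k * u + c) ∈ S} := by
        rintro _ ⟨⟨u, hu, rfl⟩, h⟩
        exact ⟨u, ⟨hu, h⟩, rfl⟩
      exact (Cardinal.mk_le_mk_of_subset this).trans Cardinal.mk_image_le)
  have := bad A (fun a ha => by obtain ⟨t, ht, rfl⟩ := hAZ ha; exact h1 t ht) hAi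
  exact absurd hA (not_le.2 this)

include hκ hS bad

theorem small_T1 {s : ℝ} (hs : s ∈ S) :
    #{t : ℝ | t ∈ S ∧ 2 * t + 2 * s ∈ S ∧ 4 * t + 2 * s ∉ S} < κ := by
  refine small_of hκ bad 2 s two_ne_zero ?_ ?_ ?_
  · rintro t ⟨ht, h1, -⟩ h
    have := hS _ h _ hs
    rw [show 2 * t + s + s = 2 * t + 2 * s by ring] at this
    exact this h1
  · rintro t ⟨-, -, h⟩
    rwa [show 2 * t + s + (2 * t + s) = 4 * t + 2 * s by ring]
  · rintro t ⟨ht, -, -⟩
    refine small_subset ?_ (small_pre (small_E hS bad t) (two_ne_zero) (2 * s + t))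
    rintro u ⟨⟨-, hu, -⟩, h⟩
    refine ⟨?_, ?_, ?_⟩
    · have := hS _ hu _ ht
      rwa [show 2 * u + 2 * s + t = 2 * u + (2 * s + t) by ring] at this
    · rwa [show 2 * u + (2 * s + t) + t = 2 * t + s + (2 * u + s) by ring]
    · rwa [show 2 * u + (2 * s + t) - t = 2 * u + 2 * s by ring]

theorem small_T2 {s : ℝ} (hs : s ∈ S) :
    #{t : ℝ | t ∈ S ∧ 2 * t - 2 * s ∈ S ∧ 4 * t - 2 * s ∉ S} < κ := by
  refine small_of hκ bad 2 (-s) two_ne_zero ?_ ?_ ?_
  · rintro t ⟨ht, h1, -⟩ h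
    have := hS _ h1 _ hs
    rw [show 2 * t - 2 * s + s = 2 * t + -s by ring] at this
    exact this h
  · rintro t ⟨-, -, h⟩
    rwa [show 2 * t + -s + (2 * t + -s) = 4 * t - 2 * s by ring]
  · rintro t ⟨ht, -, -⟩
    refine small_subset ?_ (small_pre (small_E hS bad t) (two_ne_zero) (-2 * s + t))
    rintro u ⟨⟨-, hu, -⟩, h⟩
    refine ⟨?_, ?_, ?_⟩
    · have := hS _ hu _ ht
      rwa [show 2 * u - 2 * s + t = 2 * u + (-2 * s + t) by ring] at this
    · rwa [show 2 * u + (-2 * s + t) + t = 2 * t + -s + (2 * u + -s) by ring]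
    · rwa [show 2 * u + (-2 * s + t) - t = 2 * u - 2 * s by ring]

theorem small_T3 {s : ℝ} (hs : s ∈ S) :
    #{t : ℝ | t ∈ S ∧ 4 * t + 2 * s ∈ S ∧ 8 * t + 2 * s ∉ S} < κ := by
  refine small_of hκ bad 4 s four_ne_zero ?_ ?_ ?_
  · rintro t ⟨ht, h1, -⟩ h
    have := hS _ h _ hs
    rw [show 4 * t + s + s = 4 * t + 2 * s by ring] at this
    exact this h1
  · rintro t ⟨-, -, h⟩
    rwa [show 4 * t + s + (4 * t + s) = 8 * t + 2 * s by ring]
  · rintro t ⟨ht, -, -⟩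
    refine small_subset ?_ (small_union hκ
      (small_pre (small_E hS bad (2 * t)) (four_ne_zero) (2 * s + 2 * t))
      (small_pre (small_E hS bad t) (four_ne_zero) (2 * s + t)))
    rintro u ⟨⟨-, hu, -⟩, h⟩
    by_cases hx : 4 * u + (2 * s + 2 * t) ∈ S
    · right
      refine ⟨?_, ?_, ?_⟩
      · have := hS _ hu _ ht
        rwa [show 4 * u + 2 * s + t = 4 * u + (2 * s + t) by ring] at this
      · rwa [show 4 * u + (2 * s + t) + t = 4 * u + (2 * s + 2 * t) by ring]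
      · rwa [show 4 * u + (2 * s + t) - t = 4 * u + 2 * s by ring]
    · left
      refine ⟨hx, ?_, ?_⟩
      · rwa [show 4 * u + (2 * s + 2 * t) + 2 * t = 4 * t + s + (4 * u + s) by ring]
      · rwa [show 4 * u + (2 * s + 2 * t) - 2 * t = 4 * u + 2 * s by ring]

/-- `4 s ∈ S` for almost all `s ∈ S`. -/
theorem small_X2 : #{s : ℝ | s ∈ S ∧ 4 * s ∉ S} < κ := by
  refine small_of hκ bad 2 0 two_ne_zero ?_ ?_ ?_
  · rintro s ⟨hs, -⟩
    have := hS _ hs _ hs
    rwa [show s + s = 2 * s + 0 by ring] at this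
  · rintro s ⟨-, hs⟩
    rwa [show 2 * s + 0 + (2 * s + 0) = 4 * s by ring]
  · rintro s ⟨hs, -⟩
    refine small_subset ?_ (small_union hκ (small_union hκ (small_T1 hκ hS bad hs)
      (small_pre (small_T2 hκ hS bad hs) two_ne_zero (2 * s)))
      (small_union hκ (small_T3 hκ hS bad hs)
      (small_pre (small_E hS bad (2 * s)) (by norm_num : (8 : ℝ) ≠ 0) (4 * s))))
    rintro u ⟨⟨hu, -⟩, h⟩
    have h0 : 2 * u + 2 * s ∈ S := by
      rwa [show 2 * s + 0 + (2 * u + 0) = 2 * u + 2 * s by ring] at h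
    by_cases h1 : 4 * u + 2 * s ∈ S
    · by_cases h2 : 8 * u + 6 * s ∈ S
      · by_cases h3 : 8 * u + 2 * s ∈ S
        · right; right
          refine ⟨?_, ?_, ?_⟩
          · have := hS _ h1 _ h1
            rwa [show 4 * u + 2 * s + (4 * u + 2 * s) = 8 * u + 4 * s by ring] at this
          · rwa [show 8 * u + 4 * s + 2 * s = 8 * u + 6 * s by ring]
          · rwa [show 8 * u + 4 * s - 2 * s = 8 * u + 2 * s by ring]
        · right; left
          exact ⟨hu, h1, h3⟩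
      · left; right
        refine ⟨h0, ?_, ?_⟩
        · rwa [show 2 * (2 * u + 2 * s) - 2 * s = 4 * u + 2 * s by ring]
        · rwa [show 4 * (2 * u + 2 * s) - 2 * s = 8 * u + 6 * s by ring]
    · left; left
      exact ⟨hu, h0, h1⟩

theorem small_T4 (s : ℝ) :
    #{t : ℝ | 4 * t ∈ S ∧ 3 * t + 3 * s ∈ S ∧ 4 * t + 2 * s ∉ S ∧ 8 * t + 4 * s ∉ S} < κ := by
  refine small_of hκ bad 4 (2 * s) four_ne_zero ?_ ?_ ?_
  · rintro t ⟨-, -, h, -⟩
    exact h
  · rintro t ⟨-, -, -, h⟩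
    rwa [show 4 * t + 2 * s + (4 * t + 2 * s) = 8 * t + 4 * s by ring]
  · rintro t ⟨ht, ht3, -⟩
    refine small_subset ?_ (small_union hκ
      (small_pre (small_E hS bad (2 * t + 2 * s)) (four_ne_zero) (2 * t + 2 * s))
      (small_pre (small_E hS bad (t + s)) (four_ne_zero) (3 * t + 3 * s)))
    rintro u ⟨⟨hu, -⟩, h⟩
    by_cases hx : 4 * u + (2 * t + 2 * s) ∈ S
    · right
      refine ⟨?_, ?_, ?_⟩
      · exact hS _ hu _ ht3
      · rwa [show 4 * u + (3 * t + 3 * s) + (t + s) = 4 * t + 2 * s + (4 * u + 2 * s) by ring]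
      · rwa [show 4 * u + (3 * t + 3 * s) - (t + s) = 4 * u + (2 * t + 2 * s) by ring]
    · left
      refine ⟨hx, ?_, ?_⟩
      · rwa [show 4 * u + (2 * t + 2 * s) + (2 * t + 2 * s) =
          4 * t + 2 * s + (4 * u + 2 * s) by ring]
      · rwa [show 4 * u + (2 * t + 2 * s) - (2 * t + 2 * s) = 4 * u by ring]

theorem small_T5 (s : ℝ) :
    #{t : ℝ | 4 * t ∈ S ∧ 8 * t + 4 * s ∈ S ∧ 8 * t + 2 * s ∉ S ∧ 16 * t + 4 * s ∉ S} < κ := by
  refine small_of hκ bad 8 (2 * s) (by norm_num) ?_ ?_ ?_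
  · rintro t ⟨-, -, h, -⟩
    exact h
  · rintro t ⟨-, -, -, h⟩
    rwa [show 8 * t + 2 * s + (8 * t + 2 * s) = 16 * t + 4 * s by ring]
  · rintro t ⟨ht, -⟩
    refine small_subset ?_ 
      (small_pre (small_E hS bad (4 * t)) (by norm_num : (8 : ℝ) ≠ 0) (4 * s + 4 * t))
    rintro u ⟨⟨-, hu, -⟩, h⟩
    refine ⟨?_, ?_, ?_⟩
    · have := hS _ hu _ ht
      rwa [show 8 * u + 4 * s + 4 * t = 8 * u + (4 * s + 4 * t) by ring] at this
    · rwa [show 8 * u + (4 * s + 4 * t) + 4 * t = 8 * t + 2 * s + (8 * u + 2 * s) by ring]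
    · rwa [show 8 * u + (4 * s + 4 * t) - 4 * t = 8 * u + 4 * s by ring]

/-- `6 s ∈ S` for almost all `s ∈ S`. -/
theorem small_X3 : #{s : ℝ | s ∈ S ∧ 4 * s ∈ S ∧ 16 * s ∈ S ∧ 6 * s ∉ S} < κ := by
  refine small_of hκ bad 3 0 three_ne_zero ?_ ?_ ?_
  · rintro s ⟨hs, hs4, -⟩ h
    have := hS _ h _ hs
    rw [show 3 * s + 0 + s = 4 * s by ring] at this
    exact this hs4
  · rintro s ⟨-, -, -, hs⟩
    rwa [show 3 * s + 0 + (3 * s + 0) = 6 * s by ring]
  · rintro s ⟨hs, -⟩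
    refine small_subset ?_ (small_union hκ (small_union hκ (small_T4 hκ hS bad s)
      (small_pre (small_E hS bad s) (four_ne_zero) s))
      (small_union hκ (small_union hκ (small_T5 hκ hS bad s)
      (small_pre (small_E hS bad (2 * s)) (by norm_num : (16 : ℝ) ≠ 0) (2 * s)))
      (small_union hκ
      (small_pre (small_E hS bad s) (by norm_num : (16 : ℝ) ≠ 0) s)
      (small_pre (small_E hS bad s) (by norm_num : (8 : ℝ) ≠ 0) (3 * s)))))
    rintro u ⟨⟨hu, hu4, hu16, -⟩, h⟩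
    have h0 : 3 * u + 3 * s ∈ S := by
      rwa [show 3 * s + 0 + (3 * u + 0) = 3 * u + 3 * s by ring] at h
    by_cases h1 : 4 * u + 2 * s ∈ S
    · left; right
      refine ⟨hS _ hu4 _ hs, ?_, ?_⟩
      · rwa [show 4 * u + s + s = 4 * u + 2 * s by ring]
      · rwa [show 4 * u + s - s = 4 * u by ring]
    by_cases h2 : 8 * u + 4 * s ∈ S
    · right
      by_cases h3 : 8 * u + 2 * s ∈ S
      · right; right
        refine ⟨?_, ?_, ?_⟩
        · have := hS _ h3 _ hs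
          rwa [show 8 * u + 2 * s + s = 8 * u + 3 * s by ring] at this
        · rwa [show 8 * u + 3 * s + s = 8 * u + 4 * s by ring]
        · rwa [show 8 * u + 3 * s - s = 8 * u + 2 * s by ring]
      by_cases h4 : 16 * u + 4 * s ∈ S
      · by_cases h5 : 16 * u + 2 * s ∈ S
        · right; left
          refine ⟨hS _ hu16 _ hs, ?_, ?_⟩
          · rwa [show 16 * u + s + s = 16 * u + 2 * s by ring]
          · rwa [show 16 * u + s - s = 16 * u by ring]
        · left; right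
          refine ⟨h5, ?_, ?_⟩
          · rwa [show 16 * u + 2 * s + 2 * s = 16 * u + 4 * s by ring]
          · rwa [show 16 * u + 2 * s - 2 * s = 16 * u by ring]
      · left; left
        exact ⟨hu4, h2, h3, h4⟩
    · left; left
      exact ⟨hu4, h0, h1, h2⟩

theorem small_T6 (s : ℝ) :
    #{t : ℝ | 16 * t ∈ S ∧ 5 * t + 5 * s ∈ S ∧ 16 * t + 8 * s ∉ S ∧ 32 * t + 16 * s ∉ S} < κ := by
  refine small_of hκ bad 16 (8 * s) (by norm_num) ?_ ?_ ?_
  · rintro t ⟨-, -, h, -⟩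
    exact h
  · rintro t ⟨-, -, -, h⟩
    rwa [show 16 * t + 8 * s + (16 * t + 8 * s) = 32 * t + 16 * s by ring]
  · rintro t ⟨ht, ht5, -⟩
    have h16 : (16 : ℝ) ≠ 0 := by norm_num
    refine small_subset ?_ (small_union hκ (small_union hκ
      (small_pre (small_E hS bad (8 * t + 8 * s)) h16 (8 * t + 8 * s))
      (small_pre (small_E hS bad (4 * t + 4 * s)) h16 (4 * t + 4 * s)))
      (small_union hκ
      (small_pre (small_E hS bad (2 * t + 2 * s)) h16 (6 * t + 6 * s))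
      (small_pre (small_E hS bad (t + s)) h16 (5 * t + 5 * s))))
    rintro u ⟨⟨hu, -⟩, h⟩
    by_cases hx : 16 * u + (8 * t + 8 * s) ∈ S
    · by_cases hy : 16 * u + (4 * t + 4 * s) ∈ S
      · by_cases hz : 16 * u + (6 * t + 6 * s) ∈ S
        · right; right
          refine ⟨hS _ hu _ ht5, ?_, ?_⟩
          · rwa [show 16 * u + (5 * t + 5 * s) + (t + s) = 16 * u + (6 * t + 6 * s) by ring]
          · rwa [show 16 * u + (5 * t + 5 * s) - (t + s) = 16 * u + (4 * t + 4 * s) by ring]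
        · right; left
          refine ⟨hz, ?_, ?_⟩
          · rwa [show 16 * u + (6 * t + 6 * s) + (2 * t + 2 * s) =
              16 * u + (8 * t + 8 * s) by ring]
          · rwa [show 16 * u + (6 * t + 6 * s) - (2 * t + 2 * s) =
              16 * u + (4 * t + 4 * s) by ring]
      · left; right
        refine ⟨hy, ?_, ?_⟩
        · rwa [show 16 * u + (4 * t + 4 * s) + (4 * t + 4 * s) =
            16 * u + (8 * t + 8 * s) by ring]
        · rwa [show 16 * u + (4 * t + 4 * s) - (4 * t + 4 * s) = 16 * u by ring]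
    · left; left
      refine ⟨hx, ?_, ?_⟩
      · rwa [show 16 * u + (8 * t + 8 * s) + (8 * t + 8 * s) =
          16 * t + 8 * s + (16 * u + 8 * s) by ring]
      · rwa [show 16 * u + (8 * t + 8 * s) - (8 * t + 8 * s) = 16 * u by ring]

theorem small_T7 (s : ℝ) :
    #{t : ℝ | 16 * t ∈ S ∧ 32 * t + 16 * s ∈ S ∧ 32 * t + 8 * s ∉ S ∧
      64 * t + 16 * s ∉ S} < κ := by
  refine small_of hκ bad 32 (8 * s) (by norm_num) ?_ ?_ ?_
  · rintro t ⟨-, -, h, -⟩
    exact h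
  · rintro t ⟨-, -, -, h⟩
    rwa [show 32 * t + 8 * s + (32 * t + 8 * s) = 64 * t + 16 * s by ring]
  · rintro t ⟨ht, -⟩
    refine small_subset ?_ 
      (small_pre (small_E hS bad (16 * t)) (by norm_num : (32 : ℝ) ≠ 0) (16 * s + 16 * t))
    rintro u ⟨⟨-, hu, -⟩, h⟩
    refine ⟨?_, ?_, ?_⟩
    · have := hS _ hu _ ht
      rwa [show 32 * u + 16 * s + 16 * t = 32 * u + (16 * s + 16 * t) by ring] at this
    · rwa [show 32 * u + (16 * s + 16 * t) + 16 * t =
        32 * t + 8 * s + (32 * u + 8 * s) by ring]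
    · rwa [show 32 * u + (16 * s + 16 * t) - 16 * t = 32 * u + 16 * s by ring]

/-- If `p ∈ S` and `p + 2^n s ∈ S`, where `s ∈ S` and `p` avoids small sets, contradiction. -/
theorem halve {s : ℝ} (hs : s ∈ S) {k : ℝ} (hk : k ≠ 0) (n : ℕ) (c : ℝ) :
    #{u : ℝ | k * u + c ∈ S ∧ k * u + c + 2 ^ n * s ∈ S} < κ := by
  induction n with
  | zero =>
    refine small_subset (U := ∅) ?_ (by
      rw [Cardinal.mk_eq_zero]; exact hκ.pos)
    rintro u ⟨h1, h2⟩
    exact hS _ h1 _ hs (by simpa using h2)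
  | succ n ih =>
    refine small_subset ?_ (small_union hκ ih
      (small_pre (small_E hS bad (2 ^ n * s)) hk (c + 2 ^ n * s)))
    rintro u ⟨h1, h2⟩
    by_cases h : k * u + c + 2 ^ n * s ∈ S
    · left; exact ⟨h1, h⟩
    · right
      refine ⟨?_, ?_, ?_⟩
      · rwa [show k * u + (c + 2 ^ n * s) = k * u + c + 2 ^ n * s by ring]
      · rwa [show k * u + (c + 2 ^ n * s) + 2 ^ n * s = k * u + c + 2 ^ (n + 1) * s by ring]
      · rwa [show k * u + (c + 2 ^ n * s) - 2 ^ n * s = k * u + c by ring]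

/-- `10 s ∈ S` for almost all `s ∈ S`. -/
theorem small_X5 :
    #{s : ℝ | s ∈ S ∧ 4 * s ∈ S ∧ 16 * s ∈ S ∧ 64 * s ∈ S ∧ 10 * s ∉ S} < κ := by
  refine small_of hκ bad 5 0 (by norm_num) ?_ ?_ ?_
  · rintro s ⟨hs, hs4, -⟩
    have := hS _ hs4 _ hs
    rwa [show 4 * s + s = 5 * s + 0 by ring] at this
  · rintro s ⟨-, -, -, -, hs⟩
    rwa [show 5 * s + 0 + (5 * s + 0) = 10 * s by ring]
  · rintro s ⟨hs, -⟩
    refine small_subset ?_ (small_union hκ (small_union hκ (small_T6 hκ hS bad s)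
      (halve hκ hS bad hs (by norm_num : (16 : ℝ) ≠ 0) 3 0))
      (small_union hκ (small_T7 hκ hS bad s) (small_union hκ
      (halve hκ hS bad hs (by norm_num : (64 : ℝ) ≠ 0) 4 0)
      (halve hκ hS bad hs (by norm_num : (32 : ℝ) ≠ 0) 3 (8 * s)))))
    rintro u ⟨⟨hu, hu4, hu16, hu64, -⟩, h⟩
    have h0 : 5 * u + 5 * s ∈ S := by
      rwa [show 5 * s + 0 + (5 * u + 0) = 5 * u + 5 * s by ring] at h
    by_cases h1 : 16 * u + 8 * s ∈ S
    · left; right
      refine ⟨?_, ?_⟩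
      · rwa [add_zero]
      · rwa [show 16 * u + 0 + 2 ^ 3 * s = 16 * u + 8 * s by ring]
    by_cases h2 : 32 * u + 16 * s ∈ S
    · right
      by_cases h3 : 32 * u + 8 * s ∈ S
      · right; right
        refine ⟨h3, ?_⟩
        rwa [show 32 * u + 8 * s + 2 ^ 3 * s = 32 * u + 16 * s by ring]
      by_cases h4 : 64 * u + 16 * s ∈ S
      · right; left
        refine ⟨?_, ?_⟩
        · rwa [add_zero]
        · rwa [show 64 * u + 0 + 2 ^ 4 * s = 64 * u + 16 * s by ring]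
      · left
        exact ⟨hu16, h2, h3, h4⟩
    · left; left
      exact ⟨hu16, h0, h1, h2⟩

/-- A sum-free set without large sets `A` is small. -/
theorem small_S : #S < κ := by
  have hX := small_X2 hκ hS bad
  refine small_subset ?_ (small_union hκ (small_union hκ hX
    (small_pre hX four_ne_zero 0)) (small_union hκ
    (small_pre hX (by norm_num : (16 : ℝ) ≠ 0) 0)
    (small_union hκ (small_X3 hκ hS bad) (small_X5 hκ hS bad))))
  intro s hs
  by_cases h4 : 4 * s ∈ S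
  swap
  · left; left; exact ⟨hs, h4⟩
  by_cases h16 : 16 * s ∈ S
  swap
  · left; right
    refine ⟨by rwa [add_zero], ?_⟩
    rwa [show 4 * (4 * s + 0) = 16 * s by ring]
  by_cases h64 : 64 * s ∈ S
  swap
  · right; left
    refine ⟨by rwa [add_zero], ?_⟩
    rwa [show 4 * (16 * s + 0) = 64 * s by ring]
  by_cases h6 : 6 * s ∈ S
  swap
  · right; right; left
    exact ⟨hs, h4, h16, h6⟩
  right; right; right
  refine ⟨hs, h4, h16, h64, ?_⟩
  have := hS _ h4 _ h6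
  rwa [show 4 * s + 6 * s = 10 * s by ring] at this

end Main

/-- For every sum-free set `S` of reals and every regular cardinal `κ ≤ 2^ℵ₀` there is a set `A`
of `κ` reals such that neither `A` nor `A + A` meets `S`. -/
theorem exists_set {κ : Cardinal.{0}} (hκ : κ.IsRegular) (hc : κ ≤ 𝔠) {S : Set ℝ}
    (hS : ∀ a ∈ S, ∀ b ∈ S, a + b ∉ S) :
    ∃ A : Set ℝ, #A = κ ∧ (∀ a ∈ A, a ∉ S) ∧ ∀ a ∈ A, ∀ b ∈ A, a + b ∉ S := by
  classical
  suffices h : ∃ A : Set ℝ, κ ≤ #A ∧ (∀ a ∈ A, a ∉ S) ∧ ∀ a ∈ A, ∀ b ∈ A, a + b ∉ S by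
    obtain ⟨A, hA, h1, h2⟩ := h
    obtain ⟨B, hBA, hB⟩ := Cardinal.le_mk_iff_exists_subset.1 hA
    exact ⟨B, hB, fun a ha => h1 a (hBA ha), fun a ha b hb => h2 a (hBA ha) b (hBA hb)⟩
  by_contra hbad
  push Not at hbad
  have bad : ∀ A : Set ℝ, (∀ a ∈ A, a ∉ S) → (∀ a ∈ A, ∀ b ∈ A, a + b ∉ S) → #A < κ := by
    intro A h1 h2
    by_contra hlt
    push Not at hlt
    obtain ⟨a, ha, b, hb, h⟩ := hbad A hlt h1
    exact h2 a ha b hb h
  have hSs := small_S hκ hS bad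
  set Z : Set ℝ := {x : ℝ | x ∉ S ∧ x + x ∉ S} with hZ
  have hcov : (Set.univ : Set ℝ) ⊆ Z ∪ (S ∪ {x : ℝ | 2 * x + 0 ∈ S}) := by
    intro x _
    by_cases h1 : x ∈ S
    · right; left; exact h1
    by_cases h2 : x + x ∈ S
    · right; right
      show 2 * x + 0 ∈ S
      rwa [show 2 * x + 0 = x + x by ring]
    · left; exact ⟨h1, h2⟩
  have hZκ : κ ≤ #Z := by
    by_contra hlt
    push Not at hlt
    have h1 : #(Set.univ : Set ℝ) < κ :=
      small_subset hcov (small_union hκ hlt (small_union hκ hSs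
        (small_pre hSs two_ne_zero 0)))
    rw [Cardinal.mk_univ, Cardinal.mk_real] at h1
    exact absurd hc (not_le.2 h1)
  obtain ⟨A, hAZ, hA, hAi⟩ := exists_indep hκ S Z hZκ (fun z hz => hz.2) (by
    intro z hz
    refine small_subset ?_ (small_pre hSs one_ne_zero z)
    rintro u ⟨-, h⟩
    show 1 * u + z ∈ S
    rwa [show 1 * u + z = z + u by ring])
  exact absurd hA (not_le.2 (bad A (fun a ha => (hAZ ha).1) hAi))

end Pool.Agent.H936R2.SumFree
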