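import Mathlib

set_option autoImplicit false

/-! A Strassmann-type lemma for Newton series over an ultrametric field, without completeness. -/

namespace Pool.Agent.H936R2

open Polynomial Finset

variable {K : Type*} [NormedField K] [IsUltrametricDist K]

/-- If a Newton type expansion vanishes at `j+1` distinct naturals then `e_j` is a combination of
later coefficients with integer weights. -/
lemma newton_relation (e : ℕ → K) (s : ℕ → K)
    (hs : ∀ n, s n = ∑ k ∈ range (n + 1), e k * (n.descFactorial k : K)) [CharZero K]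
    (Z : Finset ℕ) (j : ℕ) (hZ : Z.card = j + 1) (hz : ∀ n ∈ Z, s n = 0) :
    ∃ (m : ℕ) (z : ℕ → ℤ), e j = - ∑ k ∈ Ioc j m, e k * (z k : K) := by
  classical
  obtain ⟨m, hm⟩ : ∃ m, ∀ n ∈ Z, n ≤ m := ⟨Z.sup id, fun n hn => Finset.le_sup (f := id) hn⟩
  have hjm : j ≤ m := by
    have : Z ⊆ range (m + 1) := fun n hn => mem_range.mpr (Nat.lt_succ_of_le (hm n hn))
    have := card_le_card this
    rw [card_range] at this
    omega
  -- the integer polynomial with roots Z
  let W : ℤ[X] := ∏ n ∈ Z, (X - C (n : ℤ))
  have hWm : W.Monic := monic_prod_of_monic _ _ fun n _ => monic_X_sub_C _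
  have hWd : W.natDegree = j + 1 := by
    rw [natDegree_prod_of_monic _ _ fun n _ => monic_X_sub_C _]
    rw [sum_congr rfl fun n _ => natDegree_X_sub_C _]
    simp [hZ]
  let D : ℕ → ℤ[X] := fun k => descPochhammer ℤ k
  let R : ℕ → ℤ[X] := fun k => D k %ₘ W
  have hR : ∀ k, (R k).natDegree ≤ j := by
    intro k
    have h1 : (R k).degree < W.degree := degree_modByMonic_lt _ hWm
    have h2 : W.degree = (j + 1 : ℕ) := by
      rw [degree_eq_natDegree hWm.ne_zero, hWd]
    rw [h2] at h1
    by_cases h0 : R k = 0
    · simp [h0]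
    · rw [degree_eq_natDegree h0] at h1
      have : (R k).natDegree < j + 1 := by exact_mod_cast h1
      omega
  have hRlow : ∀ k, k ≤ j → R k = D k := by
    intro k hk
    apply (modByMonic_eq_self_iff hWm).2
    rw [degree_eq_natDegree hWm.ne_zero, hWd]
    have : (D k).degree ≤ (k : ℕ) := by
      have : (D k).natDegree = k := by
        simp only [D]; exact descPochhammer_natDegree ℤ k
      exact (degree_le_natDegree).trans (by rw [this])
    refine lt_of_le_of_lt this ?_
    exact_mod_cast Nat.lt_succ_of_le hk
  have heval : ∀ k, ∀ n ∈ Z, ((R k).eval (n : ℤ)) = (n.descFactorial k : ℤ) := by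
    intro k n hn
    have hroot : W.eval (n : ℤ) = 0 := by
      simp only [W, eval_prod]
      exact prod_eq_zero hn (by simp)
    have h1 := congrArg (eval (n : ℤ)) (modByMonic_add_div (D k) W)
    rw [eval_add, eval_mul, hroot, zero_mul, add_zero] at h1
    simp only [R]
    rw [h1]
    simp only [D]
    exact descPochhammer_eval_eq_descFactorial ℤ n k
  -- the K polynomial
  let Q : K[X] := ∑ k ∈ range (m + 1), C (e k) * (R k).map (Int.castRingHom K)
  have hQd : Q.natDegree ≤ j := by
    apply natDegree_sum_le_of_forall_le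
    intro k _
    refine (natDegree_C_mul_le _ _).trans ?_
    exact (natDegree_map_le).trans (hR k)
  have hQz : ∀ n ∈ Z, Q.eval (n : K) = 0 := by
    intro n hn
    have h1 : Q.eval (n : K) = ∑ k ∈ range (m + 1), e k * (n.descFactorial k : K) := by
      simp only [Q, eval_finsetSum, eval_mul, eval_C]
      apply sum_congr rfl
      intro k _
      congr 1
      have : ((n : ℕ) : K) = (Int.castRingHom K) (n : ℤ) := by simp
      rw [this, eval_map, eval₂_hom, heval k n hn]
      simp
    rw [h1]
    have h2 : ∑ k ∈ range (m + 1), e k * (n.descFactorial k : K) =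
        ∑ k ∈ range (n + 1), e k * (n.descFactorial k : K) := by
      symm
      apply sum_subset
      · intro k hk
        rw [mem_range] at *
        have := hm n hn
        omega
      · intro k _ hk
        rw [mem_range, not_lt] at hk
        rw [Nat.descFactorial_eq_zero_iff_lt.mpr (by omega)]
        simp
    rw [h2, ← hs, hz n hn]
  have hQ0 : Q = 0 := by
    by_contra hne
    have hroots : (Z.image (fun n : ℕ => (n : K))).card ≤ Q.roots.toFinset.card := by
      apply card_le_card
      intro x hx
      rw [mem_image] at hx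
      obtain ⟨n, hn, rfl⟩ := hx
      rw [Multiset.mem_toFinset, mem_roots hne]
      exact hQz n hn
    rw [card_image_of_injective _ Nat.cast_injective, hZ] at hroots
    have h2 : Q.roots.toFinset.card ≤ Q.natDegree :=
      (Multiset.toFinset_card_le _).trans (card_roots' Q)
    omega
  have hc : Q.coeff j = 0 := by rw [hQ0]; simp
  have hc2 : Q.coeff j = ∑ k ∈ range (m + 1), e k * (((R k).coeff j : ℤ) : K) := by
    simp only [Q, finsetSum_coeff, coeff_C_mul, coeff_map]
    rfl
  have hsplit : ∑ k ∈ range (m + 1), e k * (((R k).coeff j : ℤ) : K) =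
      e j + ∑ k ∈ Ioc j m, e k * (((R k).coeff j : ℤ) : K) := by
    have h1 : range (m + 1) = range (j + 1) ∪ Ioc j m := by
      ext k
      simp only [mem_range, mem_union, mem_Ioc]
      omega
    have h2 : Disjoint (range (j + 1)) (Ioc j m) := by
      rw [disjoint_left]
      intro k hk hk'
      rw [mem_range] at hk
      rw [mem_Ioc] at hk'
      omega
    rw [h1, sum_union h2]
    congr 1
    rw [sum_range_succ]
    have h3 : ∑ k ∈ range j, e k * (((R k).coeff j : ℤ) : K) = 0 := by
      apply sum_eq_zero
      intro k hk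
      rw [mem_range] at hk
      rw [hRlow k hk.le]
      have : (D k).natDegree = k := by
        simp only [D]; exact descPochhammer_natDegree ℤ k
      rw [coeff_eq_zero_of_natDegree_lt (by omega)]
      simp
    rw [h3, zero_add, hRlow j le_rfl]
    have h4 : (D j).coeff j = 1 := by
      have h5 : (D j).natDegree = j := by
        simp only [D]; exact descPochhammer_natDegree ℤ j
      have h6 : (D j).Monic := monic_descPochhammer ℤ j
      have := h6.coeff_natDegree
      rwa [h5] at this
    rw [h4]; simp
  refine ⟨m, fun k => (R k).coeff j, ?_⟩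
  rw [hc2, hsplit] at hc
  linear_combination hc

lemma norm_intCast_le (z : ℤ) : ‖(z : K)‖ ≤ 1 := IsUltrametricDist.norm_intCast_le_one K z

/-- Strassmann-type lemma: a Newton series with coefficients tending to zero and infinitely many
zeros in `ℕ` is identically zero. -/
theorem newton_zero (e : ℕ → K) (s : ℕ → K)
    (hs : ∀ n, s n = ∑ k ∈ range (n + 1), e k * (n.descFactorial k : K)) [CharZero K]
    (he : Filter.Tendsto e Filter.atTop (nhds 0))
    (hinf : {n | s n = 0}.Infinite) : ∀ n, s n = 0 := by
  classical
  have hall : ∀ k, e k = 0 := by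
    by_contra hne
    push Not at hne
    obtain ⟨k0, hk0⟩ := hne
    -- the set of indices with norm ≥ ‖e k0‖ is finite
    have hfin : {k | ‖e k0‖ ≤ ‖e k‖}.Finite := by
      have h1 := (Metric.tendsto_atTop.1 he) ‖e k0‖ (norm_pos_iff.2 hk0)
      obtain ⟨n, hn⟩ := h1
      apply (Set.finite_lt_nat n).subset
      intro k hk
      by_contra hkn
      rw [Set.mem_ofPred_eq, not_lt] at hkn
      have := hn k hkn
      rw [dist_zero_right] at this
      exact absurd hk (not_le.2 this)
    obtain ⟨k1, hk1, hmax⟩ := hfin.toFinset.exists_max_image (fun k => ‖e k‖)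
      ⟨k0, by simp⟩
    have hk1' : ‖e k0‖ ≤ ‖e k1‖ := by simpa using hk1
    have hmax' : ∀ k, ‖e k‖ ≤ ‖e k1‖ := by
      intro k
      by_cases h : ‖e k0‖ ≤ ‖e k‖
      · exact hmax k (by simpa using h)
      · exact (le_of_lt (not_le.1 h)).trans hk1'
    have hfin2 : {k | ‖e k1‖ ≤ ‖e k‖}.Finite :=
      hfin.subset fun k hk => hk1'.trans hk
    obtain ⟨j, hj, hjmax⟩ := hfin2.toFinset.exists_max_image (fun k => k) ⟨k1, by simp⟩
    have hj' : ‖e k1‖ ≤ ‖e j‖ := by simpa using hj
    have hjlt : ∀ k, j < k → ‖e k‖ < ‖e j‖ := by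
      intro k hk
      by_contra h
      have : ‖e k1‖ ≤ ‖e k‖ := hj'.trans (not_lt.1 h)
      have := hjmax k (by simpa using this)
      omega
    obtain ⟨Z, hZs, hZc⟩ := hinf.exists_subset_card_eq (j + 1)
    obtain ⟨m, z, hrel⟩ := newton_relation e s hs Z j hZc fun n hn => hZs hn
    have hpos : 0 < ‖e j‖ := lt_of_lt_of_le (norm_pos_iff.2 hk0) (hk1'.trans hj')
    have hlt : ‖e j‖ < ‖e j‖ := by
      nth_rewrite 1 [hrel]
      rw [norm_neg]
      by_cases hne' : (Ioc j m).Nonempty
      · obtain ⟨k, hk, hle⟩ := IsUltrametricDist.exists_norm_finsetSum_le_of_nonempty hne'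
          (fun k => e k * (z k : K))
        refine lt_of_le_of_lt hle ?_
        rw [norm_mul]
        calc ‖e k‖ * ‖(z k : K)‖ ≤ ‖e k‖ * 1 :=
              mul_le_mul_of_nonneg_left (norm_intCast_le _) (norm_nonneg _)
          _ = ‖e k‖ := mul_one _
          _ < ‖e j‖ := hjlt k (mem_Ioc.1 hk).1
      · rw [not_nonempty_iff_eq_empty] at hne'
        rw [hne']
        simpa using hpos
    exact lt_irrefl _ hlt
  intro n
  rw [hs]
  exact sum_eq_zero fun k _ => by rw [hall k, zero_mul]

end Pool.Agent.H936R2
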